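import Pool.Agent.Lib.MP_f3b2fd_co.KEP.B.L.Def
import Pool.Agent.Lib.MP_f3b2fd_co.KEP.B.D.St

/-! A concave lower bound for the deficit of a height. -/

namespace Pool.Agent.Lib.MP_f3b2fd_co.KL

open Real KN

/-- the table of lower bounds, lanes of width 32. -/
def yt : ℕ := 0xf75b3100f3ef1800f082ff00ed16e600e9aacd00e63eb400e2d29b00df668200dbfa6900d88e5000d5223700d1b61e00cd401700c75d4900c17a7b00bb97ad00b5b4df00afd21100a9ef4300a40c75009dc97a0095c1cf008dba240085b279007daace0075a323006d9b78006593cd005c96a900524d0800480367003db9c60033702500292684001edce300149342000a49a100000000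

/-- the chords of the table lie below the deficit. -/
def YS (yt : ℕ) : Prop := ∀ (i j : ℕ) (θ h : ℝ), i ≤ j → j ≤ 37 → 0 ≤ θ → θ ≤ 1 →
  h = 1 + ((1 - θ) * i + θ * j) / 128 → h ≤ KD.hs →
  (1 - θ) * yv yt i + θ * yv yt j ≤ 2 ^ 24 * (1 - ff h) ∧ (yv yt i : ℝ) ≤ 2 ^ 24 * (1 - ff h)

namespace Y

theorem tab : ∀ j ≤ 37, yv yt j ≤ 0 + 674209 * j ∧ yv yt j ≤ 1394463 + 526251 * j ∧
    yv yt j ≤ 3807737 + 385742 * j ∧ yv yt j ≤ 7912340 + 224281 * j := by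
  decide +kernel

theorem tang {h c : ℝ} (h0 : 0 ≤ h) (c0 : 0 ≤ c) :
    64 * (c ^ 6 + 6 * c ^ 5 * (h - c)) ≤ (4 * h ^ 2) ^ 3 := by
  have e : (4 * h ^ 2) ^ 3 - 64 * (c ^ 6 + 6 * c ^ 5 * (h - c)) = 64 * ((h - c) ^ 2 *
      (h ^ 4 + 2 * h ^ 3 * c + 3 * h ^ 2 * c ^ 2 + 4 * h * c ^ 3 + 5 * c ^ 4)) := by ring
  have : 0 ≤ 64 * ((h - c) ^ 2 *
      (h ^ 4 + 2 * h ^ 3 * c + 3 * h ^ 2 * c ^ 2 + 4 * h * c ^ 3 + 5 * c ^ 4)) := by positivity
  linarith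

theorem hs_sq {h : ℝ} (h0 : 0 ≤ h) (h1 : h ≤ KD.hs) : 4 * h ^ 2 ≤ 425 / 64 := by
  have a := pow_le_pow_left₀ h0 h1 2
  rw [KD.hs, div_pow, Real.sq_sqrt (by norm_num)] at a
  linarith

/-- one of the four lines lies below the deficit. -/
theorem low {h : ℝ} (h0 : 1 ≤ h) (h1 : h ≤ KD.hs) :
    ((0 : ℕ) : ℝ) + (674209 : ℕ) * (128 * (h - 1)) ≤ 2 ^ 24 * (1 - ff h) ∨
    ((1394463 : ℕ) : ℝ) + (526251 : ℕ) * (128 * (h - 1)) ≤ 2 ^ 24 * (1 - ff h) ∨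
    ((3807737 : ℕ) : ℝ) + (385742 : ℕ) * (128 * (h - 1)) ≤ 2 ^ 24 * (1 - ff h) ∨
    ((7912340 : ℕ) : ℝ) + (224281 : ℕ) * (128 * (h - 1)) ≤ 2 ^ 24 * (1 - ff h) := by
  have p : 0 ≤ h := by linarith
  have k := hs_sq p h1
  unfold ff
  push_cast
  rcases FF_cases (4 * h ^ 2) with g | ⟨g', g⟩ | ⟨g', g⟩ | ⟨g', g⟩ | ⟨g', g⟩ | g'
  · left
    have := tang (c := 1) p (by norm_num)
    rw [FF1 g, lin]
    generalize (4 * h ^ 2) ^ 3 = X at *
    linarith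
  · left
    have := tang (c := 1 + 8 / 128) p (by norm_num)
    rw [FF2 g' g, lin]
    generalize (4 * h ^ 2) ^ 3 = X at *
    linarith
  · right; left
    have := tang (c := 1 + 13 / 128) p (by norm_num)
    rw [FF3 g' g, lin]
    generalize (4 * h ^ 2) ^ 3 = X at *
    linarith
  · right; right; left
    have := tang (c := 1 + 21 / 128) p (by norm_num)
    rw [FF4 g' g, lin]
    generalize (4 * h ^ 2) ^ 3 = X at *
    linarith
  · right; right; right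
    have := tang (c := 1 + 32 / 128) p (by norm_num)
    rw [FF5 g' g, lin]
    generalize (4 * h ^ 2) ^ 3 = X at *
    linarith
  · linarith

theorem line {i j A B a b : ℕ} {θ h y : ℝ} (hij : i ≤ j) (h0 : 0 ≤ θ) (h1 : θ ≤ 1)
    (e : h = 1 + ((1 - θ) * i + θ * j) / 128) (ha : a ≤ A + B * i) (hb : b ≤ A + B * j)
    (hy : (A : ℝ) + B * (128 * (h - 1)) ≤ y) : (1 - θ) * a + θ * b ≤ y ∧ (a : ℝ) ≤ y := by
  have ha' : (a : ℝ) ≤ A + B * i := by exact_mod_cast ha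
  have hb' : (b : ℝ) ≤ A + B * j := by exact_mod_cast hb
  have hij' : (i : ℝ) ≤ j := by exact_mod_cast hij
  have k1 := mul_le_mul_of_nonneg_left ha' (sub_nonneg.2 h1)
  have k2 := mul_le_mul_of_nonneg_left hb' h0
  have k3 := mul_nonneg (Nat.cast_nonneg (α := ℝ) B) (mul_nonneg h0 (sub_nonneg.2 hij'))
  rw [e] at hy
  constructor <;> linarith

end Y

theorem yS : YS yt := by
  intro i j θ h hij hj h0 h1 e hh
  have hi := Y.tab i (hij.trans hj)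
  have hj' := Y.tab j hj
  have p : 1 ≤ h := by
    have a := mul_nonneg (sub_nonneg.2 h1) (Nat.cast_nonneg (α := ℝ) i)
    have b := mul_nonneg h0 (Nat.cast_nonneg (α := ℝ) j)
    linarith
  rcases Y.low p hh with k | k | k | k
  · exact Y.line hij h0 h1 e hi.1 hj'.1 k
  · exact Y.line hij h0 h1 e hi.2.1 hj'.2.1 k
  · exact Y.line hij h0 h1 e hi.2.2.1 hj'.2.2.1 k
  · exact Y.line hij h0 h1 e hi.2.2.2 hj'.2.2.2 k

theorem y_nonneg {h : ℝ} (h0 : 1 ≤ h) (h1 : h ≤ KD.hs) : 0 ≤ 1 - ff h := by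
  have a : (0 : ℝ) ≤ 128 * (h - 1) := by linarith
  have k := Y.low h0 h1
  push_cast at k
  rcases k with k | k | k | k <;> linarith

end Pool.Agent.Lib.MP_f3b2fd_co.KL
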