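import Pool.Agent.Lib.MP_f3b2fd_co.KEP.B.L.Glue

/-! A lower bound for the angles of the triangulation. -/

namespace Pool.Agent.Lib.MP_f3b2fd_co.KL

open Real KEP

namespace Am

theorem box {p q : ℝ} (p0 : 21 / 100 ≤ p) (p1 : p ≤ 7 / 10) (q0 : 21 / 100 ≤ q) (q1 : q ≤ 7 / 10) :
    (7 / 10 - p * q) ^ 2 ≤ 79 / 100 * ((1 - p ^ 2) * (1 - q ^ 2)) := by
  have a := mul_nonneg (sub_nonneg.2 p0) (sub_nonneg.2 p1)
  have b := mul_nonneg (sub_nonneg.2 q0) (sub_nonneg.2 q1)
  have c := mul_nonneg (sub_nonneg.2 p0) (sub_nonneg.2 q0)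
  have d := mul_nonneg (sub_nonneg.2 p1) (sub_nonneg.2 q1)
  have e := mul_nonneg (sub_nonneg.2 p0) (sub_nonneg.2 q1)
  have f := mul_nonneg (sub_nonneg.2 p1) (sub_nonneg.2 q0)
  nlinarith [mul_nonneg a b, mul_nonneg c d, mul_nonneg e f]

theorem alg {p q r : ℝ} (p1 : p ≤ 7 / 10) (q1 : q ≤ 7 / 10) (r1 : r ≤ 7 / 10) (p0 : -1 ≤ p)
    (q0 : -1 ≤ q) (h : 425 / 256 * cof p q r < 4 * gram p q r) (k : 0 < r - p * q) :
    (r - p * q) ^ 2 ≤ (197 / 100) ^ 2 * gram p q r := by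
  have e1 : cof p q r = gram p q r + 2 * ((1 - p) * (1 - q) * (1 - r)) := by
    unfold cof gram; ring
  have e2 := gram_eq p q r
  rcases le_or_gt ((1 + p) * (1 + q)) (207 / 100) with c | c
  · have a : 0 ≤ (1 - p) * (1 - q) := mul_nonneg (by linarith) (by linarith)
    have b := mul_le_mul_of_nonneg_left c a
    have d := mul_le_mul_of_nonneg_left (show 3 / 10 ≤ 1 - r by linarith) a
    have f : (1 - p ^ 2) * (1 - q ^ 2) = (1 - p) * (1 - q) * ((1 + p) * (1 + q)) := by ring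
    linarith
  · have a := box (p := p) (q := q) (by nlinarith) p1 (by nlinarith) q1
    have b : (r - p * q) ^ 2 ≤ (7 / 10 - p * q) ^ 2 := pow_le_pow_left₀ k.le (by linarith) 2
    nlinarith [sq_nonneg (r - p * q)]

theorem atan : arctan (197 / 100) ≤ π / 2 - 15 / 32 := by
  have a := arctan_inv_of_pos (x := (197 / 100 : ℝ)) (by norm_num)
  have b := KA.Const.atan_lo (x := (197 / 100 : ℝ)⁻¹) (by norm_num) (by norm_num) 3
  have c : (15 / 32 : ℝ) ≤ ∑ i ∈ Finset.range (2 * 3),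
      (-1) ^ i * (((197 / 100 : ℝ)⁻¹) ^ (2 * i + 1) / (2 * i + 1)) := by
    simp only [Finset.sum_range_succ, Finset.sum_range_zero]
    norm_num
  linarith

end Am

theorem amS : AmS 15 := by
  intro V _ _ t a b c m
  have h1 : KD.hs ^ 2 = 425 / 256 := by
    rw [KD.hs, div_pow, Real.sq_sqrt (by norm_num)]; norm_num
  have h2 : KD.hs ≤ 129 / 100 := by
    unfold KD.hs
    rw [div_le_iff₀ (by norm_num), Real.sqrt_le_left (by norm_num)]
    norm_num
  have m1 := t.rot _ _ _ m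
  have m2 := t.rot _ _ _ m1
  obtain ⟨p0, p1⟩ := KT.range t h1.ge h2 m
  obtain ⟨-, r1⟩ := KT.range t h1.ge h2 m1
  obtain ⟨q0, q1⟩ := KT.range t h1.ge h2 m2
  have r := t.rad _ _ _ m
  have g := t.gram_A m
  rw [t.x_symm c a] at q0 q1 r
  rw [h1] at r
  unfold Tri.A ang
  generalize t.x a b = p at *
  generalize t.x a c = q at *
  generalize t.x b c = s at *
  have k : (s - p * q) / √(gram p q s) ≤ 197 / 100 := by
    rw [div_le_iff₀ (sqrt_pos.2 g)]
    rcases le_or_gt (s - p * q) 0 with k | k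
    · exact k.trans (by positivity)
    · refine le_of_pow_le_pow_left₀ two_ne_zero (by positivity) ?_
      rw [mul_pow, sq_sqrt g.le]
      refine Am.alg p1 q1 r1 (by linarith) (by linarith) ?_ k
      unfold cof gram at r ⊢
      linarith
  have := arctan_strictMono.monotone k
  push_cast
  linarith [Am.atan]

end Pool.Agent.Lib.MP_f3b2fd_co.KL
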