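import Pool.Agent.Lib.MP_f3b2fd_co.KEP.B.L.Def

/-! Soundness of the leaf check from the triangle test and the separation planes. -/

set_option autoImplicit false

namespace Pool.Agent.Lib.MP_f3b2fd_co.KL

namespace Lf

open Real KEP KS
open En hiding ix fld pc tb

theorem fB_eq (a : ℕ) (k : ℕ → Bool) : fB a k = k a := rfl

theorem an_iff {c d : Bool} : an c d = true ↔ c = true ∧ d = true := by
  cases c <;> simp [an]

theorem orr_iff {c d : Bool} : orr c d = true ↔ c = true ∨ d = true := by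
  cases c <;> simp [orr]

theorem cd_eq (c : Bool) (x y : ℕ) : cd c x y = if c = true then x else y := by
  cases c <;> rfl

theorem fld_le (c o m : ℕ) : fld c o m ≤ m := Nat.and_le_right

theorem mx_eq (a b : ℕ) : mx a b = max a b := by
  rw [mx, cd_eq]
  simp only [Nat.ble_eq]
  split_ifs <;> omega

theorem mn_eq (a b : ℕ) : mn a b = min a b := by
  rw [mn, cd_eq]
  simp only [Nat.ble_eq]
  split_ifs <;> omega

theorem key_comm {a b : ℕ} (h : a ≠ b) : key b a = key a b := by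
  rw [key, key, cd_eq, cd_eq]
  simp only [Nat.ble_eq]
  split_ifs <;> first | rfl | omega

theorem ent_comm (IX ce : ℕ) {a b : ℕ} (h : a ≠ b) : ent IX ce b a = ent IX ce a b := by
  rw [ent, ent, key_comm h]

theorem eb_comm (IX ce : ℕ) {a b : ℕ} (h : a ≠ b) : eb IX ce b a = eb IX ce a b := by
  rw [eb, eb, key_comm h]

theorem pk_single (w n a z : ℕ) (h : a < n) :
    pk w n (fun v => if v = a then z else 0) = Nat.shiftLeft z (Nat.mul w a) := by
  induction n with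
  | zero => omega
  | succ n ih =>
    rw [pk_succ]
    rcases Nat.lt_succ_iff_lt_or_eq.1 h with k | rfl
    · rw [ih k, if_neg (by omega), mul_zero, zero_add]
    · have : pk w a (fun v => if v = a then z else 0) = pk w a (fun _ => 0) * 0 := by
        rw [pk_mul]
        exact pk_congr _ _ _ _ fun i hi => if_neg (by omega)
      rw [this, if_pos rfl, mul_zero, add_zero, mul_comm]
      exact (Nat.shiftLeft_eq _ _).symm

theorem pk_get (n v : ℕ) (f : ℕ → ℕ) (h : ∀ i, f i < 2 ^ 64) (hv : v < n) :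
    fld (pk 64 n f) (Nat.mul 64 v) 18446744073709551615 = f v := by
  obtain ⟨m, rfl⟩ : ∃ m, n = v + (1 + m) := ⟨n - v - 1, by omega⟩
  have h1 := pk_lt 64 v f fun i _ => h i
  have e : (18446744073709551615 : ℕ) = 2 ^ 64 - 1 := by norm_num
  show (pk 64 (v + (1 + m)) f >>> (64 * v)) &&& 18446744073709551615 = f v
  rw [e, Nat.and_two_pow_sub_one_eq_mod, Nat.shiftRight_eq_div_pow, pk_split, Nat.mul_add_div
    (by positivity), Nat.div_eq_of_lt h1, add_zero, pk_split, pk_succ, pk_zero, mul_one,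
    Nat.mul_add_mod]
  simp only [mul_zero, pow_zero, one_mul, add_zero]
  exact Nat.mod_eq_of_lt (h v)

/-- `S` packs numbers up to `B`, and `w` is their weighted sum. -/
def Rel (θ : ℕ → ℝ) (n S B : ℕ) (w : ℝ) : Prop :=
  ∃ f : ℕ → ℕ, S = pk 64 n f ∧ (∀ v, f v ≤ B) ∧ w = ∑ v ∈ Finset.range n, θ v * f v

variable {θ : ℕ → ℝ} {n : ℕ}

theorem Rel.zero (B : ℕ) : Rel θ n 0 B 0 :=
  ⟨fun _ => 0, by simpa using pk_mul 64 n 0 fun _ => 0, fun _ => Nat.zero_le _, by simp⟩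

theorem Rel.add {S S' B B' : ℕ} {w w' : ℝ} (h : Rel θ n S B w) (h' : Rel θ n S' B' w') :
    Rel θ n (Nat.add S S') (B + B') (w + w') := by
  obtain ⟨f, rfl, f1, rfl⟩ := h
  obtain ⟨g, rfl, g1, rfl⟩ := h'
  refine ⟨fun v => f v + g v, pk_add _ _ _ _, fun v => add_le_add (f1 v) (g1 v), ?_⟩
  rw [← Finset.sum_add_distrib]
  refine Finset.sum_congr rfl fun v _ => ?_
  push_cast
  ring

theorem Rel.single {a z B : ℕ} (h : a < n) (hz : z ≤ B) :
    Rel θ n (Nat.shiftLeft z (Nat.mul 64 a)) B (θ a * z) := by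
  refine ⟨fun v => if v = a then z else 0, (pk_single _ _ _ _ h).symm, fun v => ?_, ?_⟩
  · simp only
    split_ifs <;> omega
  · rw [Finset.sum_eq_single_of_mem a (Finset.mem_range.2 h)]
    · simp
    · intro b _ hb
      simp [hb]

theorem Rel.get {S B : ℕ} {w : ℝ} (h : Rel θ n S B w) (hB : B < 2 ^ 64) :
    w = ∑ v ∈ Finset.range n, θ v * (fld S (Nat.mul 64 v) 18446744073709551615 : ℕ) := by
  obtain ⟨f, rfl, f1, rfl⟩ := h
  refine Finset.sum_congr rfl fun v hv => ?_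
  rw [pk_get n v f (fun i => (f1 i).trans_lt hB) (Finset.mem_range.1 hv)]

/-- the coefficients along a dart. -/
structure Dd where
  (b u p q r s σ k : ℕ)

/-- the coefficients along an inner dart. -/
noncomputable def di (IX ce a b : ℕ) : Dd :=
  if b ≤ a then ⟨eb IX ce a b, fld (ent IX ce a b) 0 1048575, 524288, fld (ent IX ce a b) 40 1048575, 524288,
    fld (ent IX ce a b) 60 1048575, 0, fld (ent IX ce a b) 80 31⟩
  else ⟨eb IX ce a b, fld (ent IX ce a b) 0 1048575, fld (ent IX ce a b) 40 1048575, 524288,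
    Nat.add (fld (ent IX ce a b) 20 1048575) (fld (ent IX ce a b) 60 1048575), 524288,
    fld (ent IX ce a b) 20 1048575, fld (ent IX ce a b) 80 31⟩

/-- the coefficients read by `dr`. -/
noncomputable def dd (E IX ce κ : ℕ) (md : Bool) (LO a b : ℕ) : Dd :=
  if bit E (ix b a) = true then di IX ce a b
  else ⟨0, cd (orr md (Nat.ble 12 (blo LO a b))) 0 κ, 0, 0, fld (ent IX ce a b) 20 1048575, 0,
    fld (ent IX ce a b) 20 1048575, fld (ent IX ce a b) 80 31⟩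

/-- the side condition on boundary darts. -/
def Sc (E κ : ℕ) (md : Bool) (LO HI a b : ℕ) : Prop :=
  bit E (ix b a) = false → (md = true ∨ 12 ≤ blo LO a b) ∨ blo HI a b ≤ 12 ∨ κ = 0

theorem dr_spec {E IX ce κ : ℕ} {md : Bool} {LO HI a b : ℕ}
    {K : ℕ → ℕ → ℕ → ℕ → ℕ → ℕ → ℕ → ℕ → ℕ → ℕ → Bool} (h : dr E IX ce κ md LO HI a b K = true) :
    Sc E κ md LO HI a b ∧ K (dd E IX ce κ md LO a b).u (dd E IX ce κ md LO a b).p
      (dd E IX ce κ md LO a b).q (dd E IX ce κ md LO a b).r (dd E IX ce κ md LO a b).s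
      (dd E IX ce κ md LO a b).σ (dd E IX ce κ md LO a b).k (blo LO a b) (blo HI a b)
      (dd E IX ce κ md LO a b).b = true := by
  rw [dr, fB_eq] at h
  unfold Sc dd di
  cases h1 : bit E (ix b a)
  · rw [h1] at h
    obtain ⟨k1, k2⟩ := an_iff.1 h
    simp only [orr_iff, Nat.ble_eq, Nat.beq_eq] at k1
    exact ⟨fun _ => k1, k2⟩
  · rw [h1] at h
    refine ⟨fun k => absurd k (by simp), ?_⟩
    cases h2 : Nat.ble b a
    · rw [h2] at h
      rw [if_pos rfl, if_neg (by rw [← Nat.ble_eq, h2]; simp)]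
      exact h
    · rw [h2] at h
      rw [if_pos rfl, if_pos (by rw [← Nat.ble_eq, h2])]
      exact h

theorem dd_le (E IX ce κ : ℕ) (md : Bool) (LO a b : ℕ) (hκ : κ ≤ 1048575) :
    (dd E IX ce κ md LO a b).u ≤ 1048575 ∧ (dd E IX ce κ md LO a b).p ≤ 1048575 ∧
    (dd E IX ce κ md LO a b).q ≤ 1048575 ∧ (dd E IX ce κ md LO a b).r ≤ 2097150 ∧
    (dd E IX ce κ md LO a b).s ≤ 1048575 ∧ (dd E IX ce κ md LO a b).σ ≤ 1048575 ∧
    (dd E IX ce κ md LO a b).k ≤ 31 ∧ (dd E IX ce κ md LO a b).b ≤ 1048575 := by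
  have h0 := fld_le (ent IX ce a b) 0 1048575
  have h1 := fld_le (ent IX ce a b) 20 1048575
  have h2 := fld_le (ent IX ce a b) 40 1048575
  have h3 := fld_le (ent IX ce a b) 60 1048575
  have h4 := fld_le (ent IX ce a b) 80 31
  have h5 : eb IX ce a b ≤ 1048575 := fld_le _ _ _
  unfold dd di
  split_ifs <;> simp only [Nat.add_eq, cd_eq]
  · omega
  · omega
  · split_ifs <;> omega

/-- the part of a dart that cancels against the opposite dart. -/
noncomputable def zz (d : Dd) (x : ℝ) : ℝ :=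
  ((d.p : ℝ) - d.q) * (x + 1 / 4) + ((d.r : ℝ) - d.s - d.σ) * max (x + 1 / 4) (d.k / 32)

theorem he_spec {lo hi ha hb : ℕ} {x : ℝ} (h1 : x ≤ gr 0 hi)
    (h2 : 2 ^ 24 * (x + 1 / 4) ≤ cc ha hb) : lo < he lo hi ha hb ∧ x ≤ gr 0 (he lo hi ha hb) := by
  rw [he, mx_eq, mn_eq]
  refine ⟨lt_max_of_lt_left (Nat.lt_succ_self _), ?_⟩
  have k : Nat.shiftRight (Nat.add (cc ha hb) 524287) 19 = (cc ha hb + 524287) / 524288 :=
    Nat.shiftRight_eq_div_pow _ _
  rw [k]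
  have k1 : cc ha hb ≤ 524288 * ((cc ha hb + 524287) / 524288) := by omega
  have k2 : (cc ha hb : ℝ) ≤ 524288 * ((cc ha hb + 524287) / 524288 : ℕ) := by exact_mod_cast k1
  have k3 : ((min hi ((cc ha hb + 524287) / 524288) : ℕ) : ℝ) ≤
      (max lo.succ (min hi ((cc ha hb + 524287) / 524288)) : ℕ) := by
    exact_mod_cast le_max_right _ _
  unfold gr at h1 ⊢
  rcases min_choice hi ((cc ha hb + 524287) / 524288) with e | e <;> rw [e] at k3 ⊢ <;> linarith

theorem sp_spec {σ a b la ha lb hb k : ℕ} {x : ℝ} (h1 : a < n) (h2 : b < n) (hσ : σ ≤ 1048575)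
    (t1 : 0 ≤ θ a) (t2 : 0 ≤ θ b) (c1 : cc ha lb ≤ 2 ^ 25) (c2 : cc la hb ≤ 2 ^ 25)
    (hk : σ = 0 ∨ 524288 * k ≤ cc la lb)
    (hx : 2 ^ 24 * (x + 1 / 4) ≤ cc la lb + θ a * (Nat.sub (Nat.succ (cc ha lb)) (cc la lb) : ℕ) +
      θ b * (Nat.sub (Nat.succ (cc la hb)) (cc la lb) : ℕ)) :
    ∃ w, Rel θ n (sp σ a b la ha lb hb) (2 ^ 47) w ∧
      2 ^ 24 * (σ * max (x + 1 / 4) (k / 32)) ≤ (Nat.mul σ (cc la lb) : ℕ) + w := by
  rw [sp, cd_eq]
  simp only [Nat.beq_eq]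
  split_ifs with h
  · exact ⟨0, Rel.zero _, by simp [h]⟩
  · have b1 : ∀ z : ℕ, z ≤ 2 ^ 25 → Nat.mul σ (Nat.sub (Nat.succ z) (cc la lb)) ≤ 2 ^ 46 := by
      intro z hz
      have : Nat.sub (Nat.succ z) (cc la lb) ≤ 2 ^ 26 := by
        simp only [Nat.sub_eq, Nat.succ_eq_add_one]; omega
      exact (Nat.mul_le_mul (hσ.trans (by norm_num : 1048575 ≤ 2 ^ 20)) this).trans (by norm_num)
    refine ⟨_, (Rel.single h1 (b1 _ c1)).add (Rel.single h2 (b1 _ c2)), ?_⟩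
    have k1 : (524288 * k : ℝ) ≤ cc la lb := by exact_mod_cast hk.resolve_left h
    simp only [Nat.mul_eq, Nat.cast_mul]
    have p1 := mul_nonneg t1 (Nat.cast_nonneg (Nat.sub (Nat.succ (cc ha lb)) (cc la lb)))
    have p2 := mul_nonneg t2 (Nat.cast_nonneg (Nat.sub (Nat.succ (cc la hb)) (cc la lb)))
    have k2 : 2 ^ 24 * max (x + 1 / 4) (k / 32) ≤ cc la lb +
        θ a * (Nat.sub (Nat.succ (cc ha lb)) (cc la lb) : ℕ) +
        θ b * (Nat.sub (Nat.succ (cc la hb)) (cc la lb) : ℕ) := by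
      rcases max_choice (x + 1 / 4) ((k : ℝ) / 32) with e | e <;> rw [e] <;> linarith
    nlinarith [mul_le_mul_of_nonneg_left k2 (Nat.cast_nonneg (α := ℝ) σ)]

theorem go_spec {T : ℕ → ℕ → ℕ → ℕ → (ℕ → ℕ → Bool) → Bool} {F : ℕ → ℕ → ℕ → Bool} (H : Prop)
    (G : Tr → ℝ) (Q : Tr → Prop) (B : ℕ) (L : List Tr)
    (hT : ∀ t ∈ L, ∀ tc K, T t.1 t.2.1 t.2.2 tc K = true → ∃ dq dS, K dq dS = true ∧ Q t ∧
      (H → ∃ w, Rel θ n dS B w ∧ 2 ^ 24 * (fld tc 0 16777215 : ℝ) ≤ dq + w + G t)) :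
    ∀ (ct p q S : ℕ), go T F L ct p q S = true →
      ∃ p' q' S', F p' q' S' = true ∧ (∀ t ∈ L, Q t) ∧ (H → ∀ B0 w0, Rel θ n S B0 w0 →
        ∃ w, Rel θ n S' (B0 + L.length * B) w ∧
          2 ^ 24 * ((p' : ℝ) - p) ≤ q' - q + (w - w0) + (L.map G).sum) := by
  induction L with
  | nil =>
    intro ct p q S h
    exact ⟨p, q, S, h, by simp, fun _ B0 w0 k => ⟨w0, by simpa using k, by simp⟩⟩
  | cons t L ih =>
    intro ct p q S h
    obtain ⟨a, b, c⟩ := t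
    obtain ⟨dq, dS, k1, k2, k3⟩ := hT (a, b, c) List.mem_cons_self _ _ h
    obtain ⟨p', q', S', m1, m2, m3⟩ := ih (fun t ht => hT t (List.mem_cons_of_mem _ ht)) _ _ _ _ k1
    refine ⟨p', q', S', m1, fun t ht => (List.mem_cons.1 ht).elim (fun e => e ▸ k2) (m2 t),
      fun hH B0 w0 r => ?_⟩
    obtain ⟨w1, r1, r2⟩ := k3 hH
    obtain ⟨w, r3, r4⟩ := m3 hH _ _ (r.add r1)
    refine ⟨w, by rw [List.length_cons, add_mul, one_mul, add_comm _ B, ← add_assoc]; exact r3, ?_⟩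
    have e : fld (Nat.land ct 268435455) 0 16777215 = Nat.land ct 16777215 := by
      show ((ct &&& 268435455) >>> 0) &&& 16777215 = ct &&& 16777215
      rw [Nat.shiftRight_zero, Nat.and_assoc]
      rfl
    rw [e] at r2
    simp only [Nat.add_eq, Nat.cast_add, List.map_cons, List.sum_cons] at r4 ⊢
    linarith

variable {hs : ℝ} {tb : ℕ → ℕ → ℕ → ℕ} {yt : ℕ} {L : List Tr} {E CL KV BN YN : ℕ} {md : Bool}
  {LO HI : ℕ} {x : ℕ → ℕ → ℝ} {h y : ℕ → ℝ}

/-- the contribution of a dart. -/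
noncomputable def ww (x : ℕ → ℕ → ℝ) (cv : ℕ) (D : ℕ → ℕ → Dd) (a b c : ℕ) : ℝ :=
  ((mv cv a : ℝ) - 524288) * aa x a b c -
    ((D a b).u + (D a b).b * max (1 / 2 - x a b) 0) * ph x a b c + zz (D a b) (x a b)

/-- the position of a height in its interval. -/
def Th (θ h : ℕ → ℝ) (n LO HI : ℕ) : Prop := ∀ v < n, hlo LO v ≤ hlo HI v ∧ 0 ≤ θ v ∧ θ v ≤ 1 ∧
  h v = 1 + ((1 - θ v) * hlo LO v + θ v * hlo HI v) / 128

theorem exists_th (C : Cx hs yt n L E CL KV BN YN md LO HI x h y) : ∃ θ, Th θ h n LO HI := by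
  have : ∀ v < n, ∃ t : ℝ, hlo LO v ≤ hlo HI v ∧ 0 ≤ t ∧ t ≤ 1 ∧
      h v = 1 + ((1 - t) * hlo LO v + t * hlo HI v) / 128 := by
    intro v hv
    obtain ⟨k1, k2⟩ := C.hbox v hv
    have k3 : (hlo LO v : ℝ) ≤ hlo HI v := by linarith
    rcases k3.eq_or_lt with e | e
    · exact ⟨0, by exact_mod_cast k3, le_rfl, zero_le_one, by linarith⟩
    · have p := sub_pos.2 e
      refine ⟨(128 * (h v - 1) - hlo LO v) / (hlo HI v - hlo LO v), by exact_mod_cast k3,
        div_nonneg (by linarith) p.le, (div_le_one p).2 (by linarith), ?_⟩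
      field_simp
      ring
  choose! θ hθ using this
  exact ⟨θ, hθ⟩

theorem edge_spec (h2 : SepS) (C : Cx hs yt n L E CL KV BN YN md LO HI x h y)
    (T : Th θ h n LO HI) (H : ∀ v < n, hlo HI v ≤ 37) {a b c s : ℕ} (m : (a, b, c) ∈ darts L)
    (d : Dd) (hσ : d.σ ≤ 1048575)
    (k : kk s d.r d.s d.k d.σ (he (blo LO a b) (blo HI a b) (hlo HI a) (hlo HI b)) (hlo LO a)
      (hlo LO b) = true) :
    (blo LO a b < he (blo LO a b) (blo HI a b) (hlo HI a) (hlo HI b) ∧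
      he (blo LO a b) (blo HI a b) (hlo HI a) (hlo HI b) ≤ 31 ∧
      (d.r ≤ d.s ∨ Nat.land d.k (msk s) = 0) ∧ gr 0 (blo LO a b) ≤ x a b ∧
      x a b ≤ gr 0 (he (blo LO a b) (blo HI a b) (hlo HI a) (hlo HI b))) ∧
    ∃ w, Rel θ n (sp d.σ a b (hlo LO a) (hlo HI a) (hlo LO b) (hlo HI b)) (2 ^ 47) w ∧
      2 ^ 24 * (d.σ * max (x a b + 1 / 4) (d.k / 32)) ≤
        (Nat.mul d.σ (cc (hlo LO a) (hlo LO b)) : ℕ) + w := by
  have ha := (C.lt _ _ _ m).1
  have hb := (C.lt _ _ _ (darts_rot m)).1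
  obtain ⟨a1, a2, a3, a4⟩ := T a ha
  obtain ⟨b1, b2, b3, b4⟩ := T b hb
  obtain ⟨s1, s2, s3, s4⟩ := h2 _ _ _ _ _ _ _ _ _ a1 (H a ha) b1 (H b hb) a2 a3 b2 b3 a4 b4
    (C.sep _ _ _ m)
  simp only [kk, an_iff, orr_iff, Nat.ble_eq, Nat.beq_eq, Nat.mul_eq] at k
  obtain ⟨e1, e2⟩ := he_spec (lo := blo LO a b) (C.box _ _ _ m).2 s1
  exact ⟨⟨e1, k.2.2, k.1, (C.box _ _ _ m).1, e2⟩, sp_spec ha hb hσ a2 b2 s2 s3 k.2.1 s4⟩

theorem tri_spec (h1 : TtS) (h2 : SepS) (hull : HullS hs tb)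
    (C : Cx hs yt n L E CL KV BN YN md LO HI x h y) (T : Th θ h n LO HI) {IX ce κ cv : ℕ}
    (hκ : κ ≤ 1048575) {a b c : ℕ} (m : (a, b, c) ∈ darts L) (tc : ℕ) (K : ℕ → ℕ → Bool)
    (k : t1 (dr E IX ce κ md LO HI) tb cv LO HI a b c tc K = true) :
    ∃ dq dS, K dq dS = true ∧
      (Sc E κ md LO HI a b ∧ Sc E κ md LO HI b c ∧ Sc E κ md LO HI c a) ∧
      ((∀ v < n, hlo HI v ≤ 37) → ∃ w, Rel θ n dS (2 ^ 47 + 2 ^ 47 + 2 ^ 47) w ∧
        2 ^ 24 * (fld tc 0 16777215 : ℝ) ≤ dq + w + 2 ^ 24 *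
          (ww x cv (dd E IX ce κ md LO) a b c + ww x cv (dd E IX ce κ md LO) b c a +
            ww x cv (dd E IX ce κ md LO) c a b)) := by
  rw [t1, fB_eq, fB_eq, fB_eq, fB_eq, fB_eq, fB_eq] at k
  obtain ⟨c1, k⟩ := dr_spec k
  rw [t2] at k
  obtain ⟨c2, k⟩ := dr_spec k
  rw [t3] at k
  obtain ⟨c3, k⟩ := dr_spec k
  have d1 := dd_le E IX ce κ md LO a b hκ
  have d2 := dd_le E IX ce κ md LO b c hκ
  have d3 := dd_le E IX ce κ md LO c a hκ
  unfold ww zz
  generalize dd E IX ce κ md LO a b = D1 at *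
  generalize dd E IX ce κ md LO b c = D2 at *
  generalize dd E IX ce κ md LO c a = D3 at *
  rw [t4, an_iff, an_iff, an_iff, an_iff, an_iff] at k
  obtain ⟨⟨⟨k1, k2⟩, k3, k4⟩, k5, k6⟩ := k
  refine ⟨_, _, k6, ⟨c1, c2, c3⟩, fun H => ?_⟩
  obtain ⟨e1, w1, r1, q1⟩ := edge_spec h2 C T H m D1 d1.2.2.2.2.2.1 k1
  obtain ⟨e2, w2, r2, q2⟩ := edge_spec h2 C T H (darts_rot m) D2 d2.2.2.2.2.2.1 k2
  obtain ⟨e3, w3, r3, q3⟩ := edge_spec h2 C T H (darts_rot (darts_rot m)) D3 d3.2.2.2.2.2.1 k3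
  refine ⟨_, (r1.add r2).add r3, ?_⟩
  have ma : mv cv a ≤ 1048575 := fld_le _ _ _
  have mb : mv cv b ≤ 1048575 := fld_le _ _ _
  have mc : mv cv c ≤ 1048575 := fld_le _ _ _
  have t0 := fld_le tc 0 16777215
  have key := h1 hs tb _ _ _ _ _ _ _ _ _ _ _ _ _ _ _ _ _ _ _ _ _ _ _ _ _ _ _ _ _ _ _ _ (x a b) (x b c)
    (x c a) hull (by simp only [Nat.add_eq]; omega) (by omega) (by omega) (Nat.le_of_ble_eq_true k4) e1.1
    e1.2.1 e2.1 e2.2.1 e3.1 e3.2.1 d1.2.2.2.2.2.2.1 d2.2.2.2.2.2.2.1 d3.2.2.2.2.2.2.1 e1.2.2.1 e2.2.2.1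
    e3.2.2.1 e1.2.2.2.1 e1.2.2.2.2 e2.2.2.2.1 e2.2.2.2.2 e3.2.2.2.1 e3.2.2.2.2
    (C.geo _ _ _ m).1 (C.geo _ _ _ m).2 k5
  simp only [ph, aa, C.symm a c, C.symm b a, C.symm c b]
  simp only [wf, fn, if_true, one_ne_zero, if_false, OfNat.ofNat_ne_zero, OfNat.ofNat_ne_one] at key
  simp only [Nat.add_eq, Nat.mul_eq, Nat.cast_add, Nat.cast_mul, Nat.cast_ofNat] at key q1 q2 q3 ⊢
  linarith

theorem vl_spec {cv κ ρ S : ℕ} (m : ℕ) : ∀ p q, vl yt cv κ ρ LO HI KV CL S m p q = true →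
    (∀ v < m, hlo HI v ≤ 37 ∧ (bit CL v = true ∨ 524288 + 16 * κ + ev yt κ LO v ≤ mv cv v)) ∧
    q + ∑ v ∈ Finset.range m, (105414358 * mv cv v + ev yt κ LO v * kv KV v * 524288 +
        max (rv κ ρ KV v * (yv yt (hlo HI v) - yv yt (hlo LO v)))
          (fld S (Nat.mul 64 v) 18446744073709551615)) <
      p + ∑ v ∈ Finset.range m, (105414357 * (524288 + 16 * κ + ev yt κ LO v) +
        rv κ ρ KV v * yv yt (hlo HI v)) := by
  induction m with
  | zero =>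
    intro p q k
    exact ⟨fun v hv => absurd hv (Nat.not_lt_zero _), by simpa using Nat.le_of_ble_eq_true k⟩
  | succ m ih =>
    intro p q k
    have k' : vs yt cv κ ρ LO HI KV CL S m (vl yt cv κ ρ LO HI KV CL S m) p q = true := k
    simp only [vs, an_iff, orr_iff, Nat.ble_eq] at k'
    obtain ⟨k1, k2⟩ := ih _ _ k'.2
    refine ⟨fun v hv => ?_, ?_⟩
    · rcases Nat.lt_succ_iff_lt_or_eq.1 hv with e | rfl
      · exact k1 v e
      · exact k'.1
    · rw [Finset.sum_range_succ, Finset.sum_range_succ]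
      simp only [mx_eq, Nat.add_eq, Nat.mul_eq, Nat.sub_eq] at k2 ⊢
      omega

theorem sd_tri (F : ℕ → ℕ → ℕ → ℝ) : sd L F =
    (L.map fun t => F t.1 t.2.1 t.2.2 + F t.2.1 t.2.2 t.1 + F t.2.2 t.1 t.2.1).sum :=
  sum_darts L _

theorem sd_add (F G : ℕ → ℕ → ℕ → ℝ) :
    sd L (fun a b c => F a b c + G a b c) = sd L F + sd L G := List.sum_map_add

theorem sd_mul (r : ℝ) (F : ℕ → ℕ → ℕ → ℝ) : sd L (fun a b c => r * F a b c) = r * sd L F :=
  List.sum_map_mul_left _ _ _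

theorem sd_congr {F G : ℕ → ℕ → ℕ → ℝ} (k : ∀ a b c, (a, b, c) ∈ darts L → F a b c = G a b c) :
    sd L F = sd L G := congrArg List.sum (List.map_congr_left fun _ ht => k _ _ _ ht)

theorem sd_vert (k : ∀ a b c, (a, b, c) ∈ darts L → a < n) (μ : ℕ → ℝ) :
    sd L (fun a b c => μ a * aa x a b c) = ∑ v ∈ Finset.range n, μ v * kw x L v := by
  unfold kw sd
  generalize darts L = M at k
  induction M with
  | nil => simp
  | cons t M ih =>
    simp only [List.map_cons, List.sum_cons, mul_add, Finset.sum_add_distrib]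
    rw [ih fun a b c m => k a b c (List.mem_cons_of_mem _ m)]
    congr 1
    rw [Finset.sum_eq_single_of_mem t.1 (Finset.mem_range.2 (k _ _ _ List.mem_cons_self))]
    · simp
    · intro b _ hb
      simp [hb.symm]

/-- The edge terms cancel, and the budget row enters. -/
theorem ww_sum (C : Cx hs yt n L E CL KV BN YN md LO HI x h y) (IX ce κ cv : ℕ)
    (hS : ∀ a b c, (a, b, c) ∈ darts L → Sc E κ md LO HI a b) :
    2 ^ 24 * sd L (ww x cv (dd E IX ce κ md LO)) ≤ 16 * κ * BN + 2 ^ 24 *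
      ∑ v ∈ Finset.range n,
        ((mv cv v : ℝ) - 524288 - 16 * κ * (1 + 21 / 200 * y v)) * kw x L v := by
  classical
  set g : ℕ → ℕ → Bool := fun a b =>
    if md = true ∨ 12 ≤ blo LO a b then false else decide (x a b ≤ 1 / 8) with hg
  have b1 := C.bud g fun a b c m _ => by
    simp only [hg]
    split_ifs with k
    · refine ⟨by simp, fun _ => k.imp_right fun k => ?_⟩
      have k1 : (12 : ℝ) ≤ blo LO a b := by exact_mod_cast k
      have k2 := (C.box _ _ _ m).1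
      unfold gr at k2
      linarith
    · exact ⟨by simp_all, fun k => Or.inr (not_le.1 (by simpa using k)).le⟩
  have b2 := C.pair (fun a b c =>
      ((di IX ce a b).u + (di IX ce a b).b * max (1 / 2 - x a b) 0) * ph x a b c - zz (di IX ce a b) (x a b)) fun a b c d m m' => ?_
  · have e : sd L (ww x cv (dd E IX ce κ md LO)) = sd L fun a b c =>
        ((mv cv a : ℝ) - 524288 - 16 * κ * (1 + 21 / 200 * y a)) * aa x a b c +
        (16 * κ * ((1 + 21 / 200 * y a) * aa x a b c -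
          if bit E (ix b a) = false ∧ g a b = true then ph x a b c / 16 else 0) +
        (-1) * if bit E (ix b a) = true then
          ((di IX ce a b).u + (di IX ce a b).b * max (1 / 2 - x a b) 0) * ph x a b c -
            zz (di IX ce a b) (x a b) else 0) := by
      refine sd_congr fun a b c m => ?_
      have s := hS a b c m
      unfold ww Sc at *
      cases hb : bit E (ix b a)
      · have z : zz (dd E IX ce κ md LO a b) (x a b) = 0 := by simp [zz, dd, hb]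
        have u : (dd E IX ce κ md LO a b).u = if md = true ∨ 12 ≤ blo LO a b then 0 else κ := by
          simp [dd, hb, cd_eq, orr_iff]
        have b0 : (dd E IX ce κ md LO a b).b = 0 := by simp [dd, hb]
        rw [z, u, b0]
        by_cases k : md = true ∨ 12 ≤ blo LO a b
        · simp only [hg, if_pos k]
          simp
          ring
        · rcases (s hb).resolve_left k with k1 | rfl
          · have k2 : (blo HI a b : ℝ) ≤ 12 := by exact_mod_cast k1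
            have k3 := (C.box _ _ _ m).2
            unfold gr at k3
            have k4 : x a b ≤ 1 / 8 := by linarith
            simp only [hg, if_neg k, k4]
            simp
            ring
          · simp
      · simp [dd, hb]
        ring
    rw [e, sd_add, sd_add, sd_mul, sd_mul, sd_vert fun a b c m => (C.lt a b c m).1]
    have := mul_le_mul_of_nonneg_left b1 (by positivity : (0 : ℝ) ≤ 16 * κ)
    nlinarith
  · have n1 := (C.lt _ _ _ m).2
    have dl := mul_nonneg (add_nonneg (Nat.cast_nonneg (α := ℝ) (fld (ent IX ce a b) 0 1048575))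
      (mul_nonneg (Nat.cast_nonneg (α := ℝ) (eb IX ce a b)) (le_max_right (1 / 2 - x a b) 0)))
      (C.del _ _ _ _ m m')
    rw [C.symm b a]
    unfold zz di
    rw [ent_comm IX ce n1, eb_comm IX ce n1]
    rcases lt_or_gt_of_ne n1 with k | k
    · rw [if_neg (not_le.2 k), if_pos k.le]
      simp only [Nat.add_eq, Nat.cast_add, Nat.cast_ofNat, Nat.cast_zero]
      linarith
    · rw [if_pos k.le, if_neg (not_le.2 k)]
      simp only [Nat.add_eq, Nat.cast_add, Nat.cast_ofNat, Nat.cast_zero]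
      linarith

theorem vert {θ s m κ y w e r yl yh k ρ d : ℝ} (t2 : 0 ≤ θ) (t3 : θ ≤ 1) (m0 : 0 ≤ m) (k0 : 0 ≤ κ)
    (e0 : 0 ≤ e) (r0 : 0 ≤ r) (y0 : 0 ≤ y) (y2 : (1 - θ) * yl + θ * yh ≤ 2 ^ 24 * y)
    (y3 : yl ≤ 2 ^ 24 * y) (e1 : 209715200 * e ≤ κ * 21 * yl) (e2 : 400 * r ≤ 400 * ρ + κ * 21 * k)
    (e3 : yh - yl ≤ d) (a3 : k / 32 ≤ w)
    (p3 : (m - (524288 + 16 * κ + e)) * w ≤ (m - (524288 + 16 * κ + e)) * (2 * π)) :
    θ * s + 2 ^ 24 * ((m - 524288 - 16 * κ * (1 + 21 / 200 * y)) * w) +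
      (105414357 * (524288 + 16 * κ + e) + r * yh) ≤
      105414358 * m + e * k * 524288 + max (r * d) s + ρ * (2 ^ 24 * y) := by
  have p1 : 105414357 ≤ 2 ^ 24 * (2 * π) := by linarith [pi_gt_d20]
  have p2 : 2 ^ 24 * (2 * π) ≤ 105414358 := by linarith [pi_lt_d20]
  have g1 := mul_le_mul_of_nonneg_left p2 m0
  have g2 := mul_le_mul_of_nonneg_left p1 (by positivity : (0 : ℝ) ≤ 524288 + 16 * κ + e)
  have g3 := mul_le_mul_of_nonneg_left y3 k0
  have f1 : 0 ≤ 16 * κ * (21 / 200 * y) - e := by linarith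
  have f2 := mul_le_mul_of_nonneg_left a3 f1
  have f3 := mul_le_mul_of_nonneg_right e2 y0
  have f4 := mul_le_mul_of_nonneg_left y2 r0
  have f5 := mul_le_mul_of_nonneg_left e3 (mul_nonneg (sub_nonneg.2 t3) r0)
  have f6 := mul_le_mul_of_nonneg_left (le_max_left (r * d) s) (sub_nonneg.2 t3)
  have f7 := mul_le_mul_of_nonneg_left (le_max_right (r * d) s) t2
  linarith

theorem leafS (h1 : TtS) (h2 : SepS) : LeafS := by
  intro hs tb yt n L E CL KV BN YN md LO HI c x h y hull C k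
  obtain ⟨θ, T⟩ := exists_th C
  rw [leaf] at k
  have hκ := fld_le c 20 1048575
  generalize fld c 20 1048575 = κ at k hκ
  generalize fld c 0 1048575 = ρ at k
  generalize mkIx E L = IX at k
  generalize Nat.shiftRight c (Nat.add (Nat.add 40 (Nat.mul 20 n)) (Nat.mul 28 (len L))) = ce at k
  obtain ⟨p, q, S, k1, k2, k3⟩ := go_spec (θ := θ) (n := n) (∀ v < n, hlo HI v ≤ 37)
    (fun t => 2 ^ 24 * (ww x c (dd E IX ce κ md LO) t.1 t.2.1 t.2.2 +
      ww x c (dd E IX ce κ md LO) t.2.1 t.2.2 t.1 + ww x c (dd E IX ce κ md LO) t.2.2 t.1 t.2.1))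
    (fun t => Sc E κ md LO HI t.1 t.2.1 ∧ Sc E κ md LO HI t.2.1 t.2.2 ∧ Sc E κ md LO HI t.2.2 t.1)
    (2 ^ 47 + 2 ^ 47 + 2 ^ 47) L
    (fun t ht tc K k => tri_spec h1 h2 hull C T hκ (mem_darts ht) tc K k) _ _ _ _ k
  rw [fi] at k1
  obtain ⟨v1, v2⟩ := vl_spec n _ _ k1
  obtain ⟨w, r1, r2⟩ := k3 (fun v hv => (v1 v hv).1) 0 0 (Rel.zero 0)
  have r3 := r1.get (by have := C.len_le; omega)
  have r4 := ww_sum C IX ce κ c fun a b d m => (darts_ind (fun a b d => Sc E κ md LO HI a b ∧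
    Sc E κ md LO HI b d ∧ Sc E κ md LO HI d a) (fun _ _ _ k => ⟨k.2.1, k.2.2, k.1⟩) k2 m).1
  rw [List.sum_map_mul_left, ← sd_tri] at r2
  have r5 := mul_le_mul_of_nonneg_left C.ysum (Nat.cast_nonneg (α := ℝ) ρ)
  have r6 : ∀ v ∈ Finset.range n, θ v * (fld S (Nat.mul 64 v) 18446744073709551615 : ℕ) +
      2 ^ 24 * (((mv c v : ℝ) - 524288 - 16 * κ * (1 + 21 / 200 * y v)) * kw x L v) +
      ((105414357 * (524288 + 16 * κ + ev yt κ LO v) + rv κ ρ KV v * yv yt (hlo HI v) : ℕ) : ℝ) ≤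
      ((105414358 * mv c v + ev yt κ LO v * kv KV v * 524288 +
        max (rv κ ρ KV v * (yv yt (hlo HI v) - yv yt (hlo LO v)))
          (fld S (Nat.mul 64 v) 18446744073709551615) : ℕ) : ℝ) + ρ * (2 ^ 24 * y v) := by
    intro v hv
    have hv := Finset.mem_range.1 hv
    obtain ⟨t1, t2, t3, t4⟩ := T v hv
    obtain ⟨a1, a2, a3⟩ := C.ang v hv
    obtain ⟨y0, y1⟩ := C.ych v hv
    obtain ⟨y2, y3⟩ := y1 _ _ _ t1 (v1 v hv).1 t2 t3 t4
    have e1 : (209715200 * ev yt κ LO v : ℝ) ≤ κ * 21 * yv yt (hlo LO v) := by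
      exact_mod_cast Nat.mul_div_le (κ * 21 * yv yt (hlo LO v)) 209715200
    have e2 : (400 * rv κ ρ KV v : ℝ) ≤ 400 * ρ + κ * 21 * kv KV v := by
      have := Nat.mul_div_le (κ * 21 * kv KV v) 400
      have e : rv κ ρ KV v = ρ + κ * 21 * kv KV v / 400 := rfl
      have e' : 400 * rv κ ρ KV v ≤ 400 * ρ + κ * 21 * kv KV v := by omega
      exact_mod_cast e'
    have e3 : (yv yt (hlo HI v) : ℝ) - yv yt (hlo LO v) ≤
        (yv yt (hlo HI v) - yv yt (hlo LO v) : ℕ) := by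
      have : yv yt (hlo HI v) ≤ yv yt (hlo HI v) - yv yt (hlo LO v) + yv yt (hlo LO v) := by omega
      have : (yv yt (hlo HI v) : ℝ) ≤ (yv yt (hlo HI v) - yv yt (hlo LO v) : ℕ) +
        yv yt (hlo LO v) := by exact_mod_cast this
      linarith
    have p3 : ((mv c v : ℝ) - (524288 + 16 * κ + ev yt κ LO v)) * kw x L v ≤
        ((mv c v : ℝ) - (524288 + 16 * κ + ev yt κ LO v)) * (2 * π) := by
      rcases (v1 v hv).2 with b | b
      · rw [a2 b]
      · refine mul_le_mul_of_nonneg_left a1 (sub_nonneg.2 ?_)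
        exact_mod_cast b
    simp only [Nat.cast_add, Nat.cast_mul, Nat.cast_ofNat, Nat.cast_max]
    exact vert t2 t3 (Nat.cast_nonneg _) (Nat.cast_nonneg _) (Nat.cast_nonneg _)
      (Nat.cast_nonneg _) y0 y2 y3 e1 e2 e3 a3 p3
  have r7 := Finset.sum_le_sum r6
  rw [Finset.sum_add_distrib, Finset.sum_add_distrib, Finset.sum_add_distrib, ← r3,
    ← Finset.mul_sum, ← Finset.mul_sum, ← Finset.mul_sum, ← Nat.cast_sum, ← Nat.cast_sum] at r7
  generalize ∑ v ∈ Finset.range n, (105414358 * mv c v + ev yt κ LO v * kv KV v * 524288 +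
    max (rv κ ρ KV v * (yv yt (hlo HI v) - yv yt (hlo LO v)))
      (fld S (Nat.mul 64 v) 18446744073709551615)) = A at v2 r7
  have v3 := (Nat.cast_lt (α := ℝ)).2 v2
  have e : Nat.shiftLeft p 24 = p * 2 ^ 24 := Nat.shiftLeft_eq _ _
  rw [e] at v3
  simp only [Nat.add_eq, Nat.mul_eq, Nat.cast_add, Nat.cast_mul, Nat.cast_ofNat, Nat.cast_pow,
    Nat.cast_zero] at v3 r2
  linarith

end Lf

theorem leafS (h1 : TtS) (h2 : SepS) : LeafS := Lf.leafS h1 h2

end Pool.Agent.Lib.MP_f3b2fd_co.KL
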