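import Pool.Agent.Lib.MP_f3b2fd_co.KEP.B.L.Def

/-! The separation planes. -/

namespace Pool.Agent.Lib.MP_f3b2fd_co.KL

namespace Sep

/-- the largest cosine for the heights `h`, `k`. -/
noncomputable def cf (h k : ℝ) : ℝ := (h ^ 2 + k ^ 2 - 1) / (2 * h * k)

theorem cf_symm (h k : ℝ) : cf h k = cf k h := by
  unfold cf
  ring

theorem cf_mono {h g k : ℝ} (h1 : 1 ≤ h) (hg : h ≤ g) (k1 : 1 ≤ k) (k2 : k ≤ 1.3) :
    cf h k ≤ cf g k := by
  have p : 0 < h := by linarith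
  have q : 0 < k := by linarith
  have r : 0 < g := by linarith
  have e : cf g k - cf h k = (g - h) * (h * g + 1 - k ^ 2) / (2 * h * g * k) := by
    unfold cf
    field_simp
    ring
  have a : 1 * 1 ≤ h * g := mul_le_mul h1 (h1.trans hg) zero_le_one p.le
  have b : k ^ 2 ≤ 1.3 ^ 2 := pow_le_pow_left₀ q.le k2 2
  have c : 0 ≤ (g - h) * (h * g + 1 - k ^ 2) / (2 * h * g * k) :=
    div_nonneg (mul_nonneg (sub_nonneg.2 hg) (by linarith)) (by positivity)
  linarith

theorem cf_mixed {h g k l : ℝ} (p : 0 < h) (hg : h ≤ g) (q : 0 < k) (hl : k ≤ l) :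
    cf g l ≤ cf g k + cf h l - cf h k := by
  have r : 0 < g := by linarith
  have s : 0 < l := by linarith
  have e : cf g k + cf h l - cf h k - cf g l =
      (g - h) * (l - k) * (h * g + k * l + 1) / (2 * h * g * k * l) := by
    unfold cf
    field_simp
    ring
  have c : 0 ≤ (g - h) * (l - k) * (h * g + k * l + 1) / (2 * h * g * k * l) :=
    div_nonneg (mul_nonneg (mul_nonneg (sub_nonneg.2 hg) (sub_nonneg.2 hl)) (by positivity))
      (by positivity)
  linarith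

theorem cf_conv {a b k θ h : ℝ} (p : 0 < a) (q : 0 < b) (k1 : 1 ≤ k) (h0 : 0 ≤ θ) (h1 : θ ≤ 1)
    (r : 0 < h) (e : h = (1 - θ) * a + θ * b) : cf h k ≤ cf a k + θ * (cf b k - cf a k) := by
  have s : 0 < k := by linarith
  have e1 : cf a k + θ * (cf b k - cf a k) - cf h k =
      (k ^ 2 - 1) * (θ * (1 - θ) * (b - a) ^ 2) / (2 * k * a * b * h) +
        ((1 - θ) * a + θ * b - h) * (1 / (2 * k) - (k ^ 2 - 1) * ((1 - θ) * b + θ * a) /
          (2 * k * a * b * h)) := by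
    unfold cf
    field_simp
    ring
  have c : 0 ≤ (k ^ 2 - 1) * (θ * (1 - θ) * (b - a) ^ 2) / (2 * k * a * b * h) :=
    div_nonneg (mul_nonneg (sub_nonneg.2 (one_le_pow₀ k1))
      (mul_nonneg (mul_nonneg h0 (sub_nonneg.2 h1)) (sq_nonneg _))) (by positivity)
  rw [← e, sub_self, zero_mul, add_zero] at e1
  linarith

theorem cc_real (i j : ℕ) :
    2 ^ 24 * (cf (1 + i / 128) (1 + j / 128) + 1 / 4) ≤ cc i j ∧
      (cc i j : ℝ) ≤ 2 ^ 24 * (cf (1 + i / 128) (1 + j / 128) + 1 / 4) + 1 := by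
  have hN : 16384 ≤ (128 + i) * (128 + i) + (128 + j) * (128 + j) :=
    le_trans (Nat.mul_le_mul (Nat.le_add_right 128 i) (Nat.le_add_right 128 i))
      (Nat.le_add_right _ _)
  have hD : 0 < (128 + i) * (128 + j) := by positivity
  have e : cc i j = 4194305 + 8388608 * ((128 + i) * (128 + i) + (128 + j) * (128 + j) - 16384) /
      ((128 + i) * (128 + j)) := rfl
  have e2 : (2 : ℝ) ^ 24 * cf (1 + i / 128) (1 + j / 128) =
      ((8388608 * ((128 + i) * (128 + i) + (128 + j) * (128 + j) - 16384) : ℕ) : ℝ) /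
        (((128 + i) * (128 + j) : ℕ) : ℝ) := by
    push_cast [Nat.cast_sub hN]
    unfold cf
    field_simp
    ring
  rw [e, mul_add, e2]
  generalize 8388608 * ((128 + i) * (128 + i) + (128 + j) * (128 + j) - 16384) = N
  generalize (128 + i) * (128 + j) = D at hD
  have a : ((N / D : ℕ) : ℝ) ≤ (N : ℝ) / D := Nat.cast_div_le
  have b : (N : ℝ) / D < (N / D : ℕ) + 1 := by
    rw [div_lt_iff₀ (by exact_mod_cast hD)]
    exact_mod_cast (Nat.div_lt_iff_lt_mul hD).1 (Nat.lt_succ_self (N / D))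
  rw [Nat.cast_add]
  push_cast at a b ⊢
  constructor <;> linarith

theorem cc_le : ∀ i ≤ 37, ∀ j ≤ 37, cc i j ≤ 2 ^ 25 := by decide +kernel

theorem sub_ge (a b : ℕ) : (a : ℝ) + 1 - b ≤ (Nat.sub (Nat.succ a) b : ℕ) := by
  have : a + 1 ≤ Nat.sub (Nat.succ a) b + b := by
    rw [Nat.sub_eq]
    omega
  have h : (a : ℝ) + 1 ≤ (Nat.sub (Nat.succ a) b : ℕ) + b := by exact_mod_cast this
  linarith

end Sep

open Sep in
theorem sepS : SepS := by
  intro la ha lb hb θ η h k x h1 h2 h3 h4 t0 t1 e0 e1 eh ek hx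
  have a0 : (0 : ℝ) ≤ la := Nat.cast_nonneg _
  have b0 : (0 : ℝ) ≤ lb := Nat.cast_nonneg _
  have a1 : (la : ℝ) ≤ ha := by exact_mod_cast h1
  have b1 : (lb : ℝ) ≤ hb := by exact_mod_cast h3
  have a2 : (ha : ℝ) ≤ 37 := by exact_mod_cast h2
  have b2 : (hb : ℝ) ≤ 37 := by exact_mod_cast h4
  have u1 := mul_nonneg t0 (sub_nonneg.2 a1)
  have u2 := mul_nonneg (sub_nonneg.2 t1) (sub_nonneg.2 a1)
  have v1 := mul_nonneg e0 (sub_nonneg.2 b1)
  have v2 := mul_nonneg (sub_nonneg.2 e1) (sub_nonneg.2 b1)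
  have hl : 1 + (la : ℝ) / 128 ≤ h := by linarith
  have hu : h ≤ 1 + (ha : ℝ) / 128 := by linarith
  have kl : 1 + (lb : ℝ) / 128 ≤ k := by linarith
  have ku : k ≤ 1 + (hb : ℝ) / 128 := by linarith
  have ph : 0 < h := by linarith
  have pk : 0 < k := by linarith
  have x1 : x ≤ cf h k := by
    unfold cf
    rw [le_div_iff₀ (by positivity)]
    linarith
  refine ⟨?_, cc_le _ h2 _ (h3.trans h4), cc_le _ (h1.trans h2) _ h4, ?_⟩
  · have c1 := cf_mono (by linarith) hu (by linarith : 1 ≤ k) (by linarith)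
    have c2 := cf_mono (by linarith) ku (by linarith : 1 ≤ 1 + (ha : ℝ) / 128) (by linarith)
    rw [cf_symm k, cf_symm (1 + (hb : ℝ) / 128)] at c2
    linarith [(cc_real ha hb).1]
  · have c1 := cf_mixed (by linarith) hl (by linarith) kl
    have c2 := cf_conv (a := 1 + (la : ℝ) / 128) (b := 1 + (ha : ℝ) / 128)
      (k := 1 + (lb : ℝ) / 128) (by linarith) (by linarith) (by linarith) t0 t1 ph (by linarith)
    have c3 := cf_conv (a := 1 + (lb : ℝ) / 128) (b := 1 + (hb : ℝ) / 128)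
      (k := 1 + (la : ℝ) / 128) (by linarith) (by linarith) (by linarith) e0 e1 pk (by linarith)
    rw [cf_symm k, cf_symm (1 + (lb : ℝ) / 128), cf_symm (1 + (hb : ℝ) / 128)] at c3
    have d0 := cc_real la lb
    have d1 := (cc_real ha lb).1
    have d2 := (cc_real la hb).1
    have s1 := sub_ge (cc ha lb) (cc la lb)
    have s2 := sub_ge (cc la hb) (cc la lb)
    have w1 := mul_le_mul_of_nonneg_left (by linarith [d0.2] :
      2 ^ 24 * (cf (1 + (ha : ℝ) / 128) (1 + (lb : ℝ) / 128) -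
        cf (1 + (la : ℝ) / 128) (1 + (lb : ℝ) / 128)) ≤
        (Nat.sub (Nat.succ (cc ha lb)) (cc la lb) : ℕ)) t0
    have w2 := mul_le_mul_of_nonneg_left (by linarith [d0.2] :
      2 ^ 24 * (cf (1 + (la : ℝ) / 128) (1 + (hb : ℝ) / 128) -
        cf (1 + (la : ℝ) / 128) (1 + (lb : ℝ) / 128)) ≤
        (Nat.sub (Nat.succ (cc la hb)) (cc la lb) : ℕ)) e0
    linarith [d0.1]

end Pool.Agent.Lib.MP_f3b2fd_co.KL
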