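import Pool.Agent.Lib.MP_f3b2fd_co.KEP.B.L.Def

/-! Soundness of the test for one triangle. -/

namespace Pool.Agent.Lib.MP_f3b2fd_co.KL

open Real KEP KS

namespace Tt

theorem msk_eq (w : ℕ) : msk w = 2 ^ w - 1 := by
  show 1 <<< w - 1 = _
  rw [Nat.one_shiftLeft]

theorem fld_msk (c o w : ℕ) : fld c o (msk w) = c >>> o % 2 ^ w := by
  rw [msk_eq]
  exact Nat.and_two_pow_sub_one_eq_mod _ _

theorem cut (T W n : ℕ) : T % 2 ^ (W * n) = pk W n fun i => T >>> (W * i) % 2 ^ W := by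
  induction n with
  | zero => simp [pk_zero, Nat.mod_one]
  | succ n ih => rw [pk_succ, ← ih, Nat.mul_succ, pow_add, Nat.mod_mul, Nat.shiftRight_eq_div_pow, add_comm]

theorem tb_pk (W n : ℕ) (f : ℕ → ℕ) (h : ∀ i < n, f i < 2 ^ W) (i b : ℕ) (hi : i < n) (hb : b < W) :
    (pk W n f).testBit (W * i + b) = (f i).testBit b := by
  induction n with
  | zero => omega
  | succ n ih =>
    rw [pk_succ, Nat.testBit_two_pow_mul_add _ (pk_lt W n f fun i hi => h i (by omega))]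
    rcases Nat.lt_succ_iff_lt_or_eq.1 hi with h1 | rfl
    · rw [if_pos (by nlinarith), ih (fun i hi => h i (by omega)) h1]
    · rw [if_neg (by omega), Nat.add_sub_cancel_left]

theorem ln_pk (W n : ℕ) (f : ℕ → ℕ) (h : ∀ i < n, f i < 2 ^ W) (i : ℕ) (hi : i < n) :
    pk W n f >>> (W * i) % 2 ^ W = f i := by
  refine Nat.eq_of_testBit_eq fun b => ?_
  rw [Nat.testBit_mod_two_pow, Nat.testBit_shiftRight]
  by_cases hb : b < W
  · rw [tb_pk W n f h i b hi hb]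
    simp [hb]
  · rw [Nat.testBit_lt_two_pow ((h i hi).trans_le (Nat.pow_le_pow_right two_pos (by omega)))]
    simp [hb]

theorem ones_eq (W n : ℕ) (hW : 0 < W) : ones W n = pk W n fun _ => 1 := by
  have h1 : 1 < 2 ^ W := Nat.one_lt_two_pow hW.ne'
  have e : (pk W n fun _ => 1) * (2 ^ W - 1) + 1 = 2 ^ (W * n) := by
    induction n with
    | zero => simp [pk_zero]
    | succ n ih =>
      obtain ⟨z, hz⟩ := Nat.exists_eq_add_of_lt h1
      rw [pk_succ, Nat.mul_succ W n, pow_add, add_mul, add_assoc, ih, hz]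
      simp only [show 1 + z + 1 - 1 = 1 + z by omega]
      ring
  show msk (W * n) / msk W = _
  rw [msk_eq, msk_eq, ← e, Nat.add_sub_cancel, Nat.mul_div_cancel _ (by omega)]

theorem pk_nest (W n m : ℕ) (hn : 0 < n) (F : ℕ → ℕ → ℕ) :
    pk (W * n) m (fun b => pk W n (F b)) = pk W (n * m) fun t => F (t / n) (t % n) := by
  induction m with
  | zero => simp [pk_zero]
  | succ m ih =>
    rw [pk_succ, Nat.mul_succ, pk_split, ih, mul_assoc]
    congr 2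
    refine pk_congr _ _ _ _ fun i hi => ?_
    rw [Nat.mul_add_mod, Nat.mod_eq_of_lt hi, Nat.mul_add_div hn, Nat.div_eq_of_lt hi, add_zero]

theorem val_lt (tb : ℕ → ℕ → ℕ → ℕ) (s m i j k : ℕ) : val tb s m i j k < 2 ^ 64 :=
  Nat.mod_lt _ (by positivity)

theorem rp_eq (tb : ℕ → ℕ → ℕ → ℕ) (s t i R kw W : ℕ) (hW : 0 < W) (h : kw + W ≤ 32) :
    rp tb s t i R kw W = pk 64 (W * R) fun u => val tb s t i (u / W) (kw + u % W) := by
  rw [← pk_nest 64 W R hW fun j d => val tb s t i j (kw + d)]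
  refine pk_congr _ _ _ _ fun j _ => ?_
  show fld (fld _ (2048 * j) (msk 2048)) (64 * kw) (msk (64 * W)) = _
  rw [fld_msk, fld_msk, cut]
  refine pk_congr _ _ _ _ fun d hd => Nat.eq_of_testBit_eq fun b => ?_
  simp only [val, lane, Nat.testBit_mod_two_pow, Nat.testBit_shiftRight]
  by_cases hb : b < 64
  · rw [show 2048 * j + (64 * kw + (64 * d + b)) = 64 * (32 * j + (kw + d)) + b by ring]
    simp [hb, show 64 * kw + (64 * d + b) < 2048 by omega]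
  · simp [hb]

theorem beq_f {a b : ℕ} (h : a ≠ b) : Nat.beq a b = false :=
  Bool.eq_false_iff.2 fun e => h (Nat.eq_of_beq_eq_true e)

theorem pl_eq (tb : ℕ → ℕ → ℕ → ℕ) (s t j0 m R kw W i : ℕ) (hW : 0 < W)
    (h : kw + W ≤ 32) (hR : j0 + m ≤ R) : pl tb s t j0 m R kw W i = pk 64 (W * m) fun u =>
      val tb s t i (j0 + u / W) (kw + u % W) := by
  show fld (cd (Nat.beq W 32) (tb s t i) (rp tb s t i R kw W)) (64 * W * j0) (msk (64 * W * m)) = _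
  rw [mul_assoc, mul_assoc, fld_msk, cut]
  refine pk_congr _ _ _ _ fun u hu => ?_
  rw [← Nat.shiftRight_add, ← mul_add]
  rcases eq_or_ne W 32 with e | e
  · rw [e, Nat.beq_refl, val, show 32 * (j0 + u / 32) + (kw + u % 32) = 32 * j0 + u by omega]
    rfl
  · rw [beq_f e]
    show rp tb s t i R kw W >>> _ % _ = _
    rw [rp_eq _ _ _ _ _ _ _ hW h, ln_pk _ _ _ (fun _ _ => val_lt _ _ _ _ _ _) _ (by nlinarith),
      Nat.mul_add_div hW, Nat.mul_add_mod]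

theorem y2_eq (s k : ℕ) (c : Bool) (j0 m W : ℕ) (hW : 0 < W) :
    y2 s k c j0 m W = pk 64 (W * m) fun u => vx s k c (j0 + u / W) := by
  show ones 64 W * pk (64 * W) m _ = _
  rw [ones_eq _ _ (by norm_num), pk_outer _ _ _ hW]
  exact pk_congr _ _ _ _ fun u _ => one_mul _

theorem y3_eq (s k : ℕ) (c : Bool) (kw m W : ℕ) (hW : 0 < W) :
    y3 s k c kw m W = pk 64 (W * m) fun u => vx s k c (kw + u % W) := by
  show pk 64 W _ * ones (64 * W) m = _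
  rw [ones_eq _ _ (by positivity), pk_outer _ _ _ hW]
  exact pk_congr _ _ _ _ fun u _ => mul_one _

theorem mul_pk (w n c : ℕ) (f : ℕ → ℕ) : c * pk w n f = pk w n fun i => c * f i := by
  rw [mul_comm, pk_mul]
  exact pk_congr _ _ _ _ fun _ _ => mul_comm _ _

theorem al_eq {n i0 : ℕ} {p : ℕ → Bool} (h : al n i0 p = true) : ∀ a < n, p (i0 + a) = true := by
  induction n with
  | zero => omega
  | succ n ih =>
    replace h : an (p (i0 + n)) (al n i0 p) = true := h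
    cases e : p (i0 + n)
    · rw [e] at h; exact Bool.noConfusion h
    · rw [e] at h
      intro a ha
      rcases Nat.lt_succ_iff_lt_or_eq.1 ha with t | rfl
      exacts [ih h a t, e]

theorem bo_eq (c : Bool) (k : Bool → Bool) : bo c k = k c := by cases c <;> rfl

theorem fB_eq (a : ℕ) (k : ℕ → Bool) : fB a k = k a := id rfl

theorem ble_f {a b : ℕ} (h : b < a) : Nat.ble a b = false :=
  Bool.eq_false_iff.2 fun e => absurd (Nat.le_of_ble_eq_true e) (by omega)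

theorem term_eq (p q N : ℕ) (f g : ℕ → ℕ) :
    term p q (pk 64 N f) (pk 64 N g) = pk 64 N fun u => (p - q) * f u + (q - p) * g u := by
  have e : term p q (pk 64 N f) (pk 64 N g) = pk 64 N f * (p - q) + pk 64 N g * (q - p) := by
    unfold term
    rcases lt_trichotomy p q with h | h | h
    · rw [beq_f h.ne, ble_f h,
        Nat.sub_eq_zero_of_le h.le, mul_zero, zero_add, mul_comm]
      rfl
    · subst h
      rw [Nat.beq_refl]
      simp [cd]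
    · rw [beq_f h.ne', Nat.ble_eq_true_of_le h.le, Nat.sub_eq_zero_of_le h.le, mul_zero,
        add_zero, mul_comm]
      rfl
  rw [e, pk_mul, pk_mul, pk_add]
  exact pk_congr _ _ _ _ fun u _ => by ring

theorem zt_eq (b T : ℕ) : zt b T = b * T := by
  unfold zt
  rcases eq_or_ne b 0 with rfl | h
  · rw [zero_mul]; rfl
  · rw [beq_f h]; rfl

theorem df_sl (tb : ℕ → ℕ → ℕ → ℕ) (p q t s i j k : ℕ) : df p q * val tb s (sl p q t) i j k =
    (p - q) * val tb s t i j k + (q - p) * val tb s (t + 6) i j k := by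
  show (p - q + (q - p)) * val tb s (cd (Nat.ble q p) t (t + 6)) i j k = _
  rcases le_or_gt q p with h | h
  · rw [Nat.ble_eq_true_of_le h, Nat.sub_eq_zero_of_le h, zero_mul, add_zero, add_zero]; rfl
  · rw [ble_f h, Nat.sub_eq_zero_of_le h.le, zero_mul, zero_add, zero_add]; rfl

theorem df_bl (p q s k i : ℕ) :
    df p q * vx s k (Nat.ble p q) i = (p - q) * vx s k false i + (q - p) * vx s k true i := by
  show (p - q + (q - p)) * _ = _
  rcases le_or_gt p q with h | h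
  · rw [Nat.ble_eq_true_of_le h, Nat.sub_eq_zero_of_le h, zero_mul, zero_add, zero_add]
  · rw [ble_f h, Nat.sub_eq_zero_of_le h.le, zero_mul, add_zero, add_zero]

theorem mx_eq (a b : ℕ) : mx a b = max a b := by
  unfold mx
  rcases le_or_gt a b with h | h
  · rw [Nat.ble_eq_true_of_le h, max_eq_right h]; rfl
  · rw [ble_f h, max_eq_left h.le]; rfl

theorem vx_f (s k i : ℕ) : vx s k false i = 524288 * max (i * 2 ^ s) k := by
  rw [← Nat.shiftLeft_eq, ← mx_eq]; rfl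

theorem vx_t (s k i : ℕ) : vx s k true i = 67108864 - 524288 * max (i * 2 ^ s) k := by
  rw [← Nat.shiftLeft_eq, ← mx_eq]; rfl

theorem vx_le {s k i : ℕ} (c : Bool) (hs : s ≤ 2) (hk : k ≤ 31) (hi : i < 32) : vx s k c i ≤ 2 ^ 26 := by
  have : 2 ^ s ≤ 4 := Nat.pow_le_pow_right two_pos hs
  have : i * 2 ^ s ≤ 128 := by nlinarith
  cases c
  · rw [vx_f]; omega
  · rw [vx_t]; omega

theorem tm_le (p q f g : ℕ) (hf : f ≤ 2 ^ 26) (hg : g ≤ 2 ^ 26) :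
    (p - q) * f + (q - p) * g ≤ 2 ^ 26 * (p + q) := by
  have h1 := Nat.mul_le_mul (Nat.sub_le p q) hf
  have h2 := Nat.mul_le_mul (Nat.sub_le q p) hg
  omega

/-- the tested value at a grid point. -/
noncomputable def V (tb : ℕ → ℕ → ℕ → ℕ)
    (p1 q1 p2 q2 p3 q3 p4 q4 p5 q5 p6 q6 p7 q7 p8 q8 p9 q9 b1 b2 b3 s k1 k2 k3 i j k : ℕ) : ℕ :=
  (p1 - q1) * val tb s 0 i j k + (q1 - p1) * val tb s 6 i j k +
  ((p2 - q2) * val tb s 1 i j k + (q2 - p2) * val tb s 7 i j k) +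
  ((p3 - q3) * val tb s 2 i j k + (q3 - p3) * val tb s 8 i j k) +
  ((p4 - q4) * vx s 0 false i + (q4 - p4) * vx s 0 true i) +
  ((p5 - q5) * vx s 0 false j + (q5 - p5) * vx s 0 true j) +
  ((p6 - q6) * vx s 0 false k + (q6 - p6) * vx s 0 true k) +
  ((p7 - q7) * vx s k1 false i + (q7 - p7) * vx s k1 true i) +
  ((p8 - q8) * vx s k2 false j + (q8 - p8) * vx s k2 true j) +
  ((p9 - q9) * vx s k3 false k + (q9 - p9) * vx s k3 true k) +
  (b1 * val tb s 9 i j k + b2 * val tb s 10 i j k + b3 * val tb s 11 i j k)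

theorem lt2 (m a b n : ℕ) (hb : b < m) (ha : a < n) : m * a + b < m * n := by nlinarith

theorem pt {hs : ℝ} {tb : ℕ → ℕ → ℕ → ℕ} (H : HullS hs tb)
    {p1 q1 p2 q2 p3 q3 p4 q4 p5 q5 p6 q6 p7 q7 p8 q8 p9 q9 z1 z2 z3 τ s i0 n j0 m R kw W k0 w
      k1 k2 k3 : ℕ}
    (hb : p1 + q1 + p2 + q2 + p3 + q3 + p4 + q4 + p5 + q5 + p6 + q6 + p7 + q7 + p8 + q8 + p9 + q9 ≤
      2 ^ 30) (hz : z1 + z2 + z3 ≤ 2 ^ 30) (hτ : τ ≤ 2 ^ 24) (h2 : s ≤ 2) (a1 : k1 ≤ 31)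
    (a2 : k2 ≤ 31) (a3 : k3 ≤ 31)
    (b1 : i0 + n ≤ 32) (b2 : j0 + m ≤ R) (b3 : R ≤ 32) (b4 : kw ≤ k0) (b5 : k0 + w ≤ kw + W)
    (b6 : kw + W ≤ 32)
    (h : tt tb p1 q1 p2 q2 p3 q3 p4 q4 p5 q5 p6 q6 p7 q7 p8 q8 p9 q9 z1 z2 z3 τ s i0 n j0 m R kw W
      k0 w k1 k2 k3 = true) (i j k : ℕ) (c1 : i0 ≤ i) (c2 : i < i0 + n) (c3 : j0 ≤ j) (c4 : j < j0 + m)
    (c5 : k0 ≤ k) (c6 : k < k0 + w) (ok : (val tb s 12 i j k).testBit 63 = true) :
    2 ^ 24 * τ ≤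
      V tb p1 q1 p2 q2 p3 q3 p4 q4 p5 q5 p6 q6 p7 q7 p8 q8 p9 q9 z1 z2 z3 s k1 k2 k3 i j k := by
  have hW : 0 < W := by omega
  obtain ⟨a, rfl⟩ := Nat.exists_eq_add_of_le c1
  obtain ⟨b, rfl⟩ := Nat.exists_eq_add_of_le c3
  obtain ⟨d, rfl⟩ := Nat.exists_eq_add_of_le (b4.trans c5)
  have hd : d < W := by omega
  have e2 : (W * b + d) / W = b := by rw [Nat.mul_add_div hW, Nat.div_eq_of_lt hd, add_zero]
  have e3 : (W * b + d) % W = d := by rw [Nat.mul_add_mod, Nat.mod_eq_of_lt hd]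
  have hu : W * b + d < W * m := lt2 W b d m hd (by omega)
  unfold tt at h
  simp only [fB_eq, bo_eq] at h
  have g := al_eq h a (by omega)
  unfold tp at g
  replace g := Nat.eq_of_beq_eq_true g
  generalize i0 + a = i at *
  simp only [pl_eq _ _ _ _ _ _ _ _ _ hW b6 b2, y2_eq _ _ _ _ _ _ hW, y3_eq _ _ _ _ _ _ hW, term_eq,
    zt_eq, Nat.add_eq, Nat.mul_eq, Nat.sub_eq, ones_eq 64 _ (by norm_num), mul_pk, pk_add, mul_one,
    df_sl, df_bl, Nat.reduceAdd] at g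
  have tM : (pm tb s j0 m R kw W k0 w i).testBit (64 * (W * b + d) + 63) = true := by
    show (pl tb s 12 j0 m R kw W i &&& (msk (64 * w) <<< (64 * (k0 - kw)) *
      ones (64 * W) m)).testBit _ = true
    rw [Nat.testBit_and, pl_eq _ _ _ _ _ _ _ _ _ hW b6 b2,
      tb_pk _ _ _ (fun _ _ => val_lt _ _ _ _ _ _) _ _ hu (by norm_num), e2, e3, ok,
      ones_eq _ _ (by positivity), mul_comm, pk_mul,
      show 64 * (W * b + d) + 63 = 64 * W * b + (64 * d + 63) by ring,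
      tb_pk _ _ _ (fun _ _ => ?_) _ _ (show b < m by omega) (by omega), one_mul,
      Nat.testBit_shiftLeft, msk_eq, Nat.testBit_two_pow_sub_one]
    · simp only [Bool.true_and, Bool.and_eq_true, decide_eq_true_eq]
      omega
    · rw [one_mul, msk_eq]
      refine (Nat.shiftLeft_lt (n := 64 * w) (Nat.sub_lt (by positivity) one_pos)).trans_le
        (Nat.pow_le_pow_right two_pos (by omega))
  have hS : Nat.shiftLeft τ 24 = τ * 2 ^ 24 := Nat.shiftLeft_eq _ _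
  have bd : ∀ u < W * m, V tb p1 q1 p2 q2 p3 q3 p4 q4 p5 q5 p6 q6 p7 q7 p8 q8 p9 q9 z1 z2 z3 s
      k1 k2 k3 i (j0 + u / W) (kw + u % W) ≤ 2 ^ 57 := fun u hu => by
    have u2 : u / W < m := Nat.div_lt_of_lt_mul hu
    have u3 : u % W < W := Nat.mod_lt _ hW
    generalize u / W = b at *
    generalize u % W = d at *
    have v := fun t (ht : t < 12) => H.le s t i (j0 + b) (kw + d) h2 ht (by omega) (by omega) (by omega)
    have y1 := fun k c (hk : k ≤ 31) => vx_le (i := i) c h2 hk (by omega)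
    have y2 := fun k c (hk : k ≤ 31) => vx_le (i := j0 + b) c h2 hk (by omega)
    have y3 := fun k c (hk : k ≤ 31) => vx_le (i := kw + d) c h2 hk (by omega)
    have := tm_le p1 q1 _ _ (v 0 (by norm_num)) (v 6 (by norm_num))
    have := tm_le p2 q2 _ _ (v 1 (by norm_num)) (v 7 (by norm_num))
    have := tm_le p3 q3 _ _ (v 2 (by norm_num)) (v 8 (by norm_num))
    have := tm_le p4 q4 _ _ (y1 0 false (by norm_num)) (y1 0 true (by norm_num))
    have := tm_le p5 q5 _ _ (y2 0 false (by norm_num)) (y2 0 true (by norm_num))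
    have := tm_le p6 q6 _ _ (y3 0 false (by norm_num)) (y3 0 true (by norm_num))
    have := tm_le p7 q7 _ _ (y1 k1 false a1) (y1 k1 true a1)
    have := tm_le p8 q8 _ _ (y2 k2 false a2) (y2 k2 true a2)
    have := tm_le p9 q9 _ _ (y3 k3 false a3) (y3 k3 true a3)
    have := Nat.mul_le_mul_left z1 (v 9 (by norm_num))
    have := Nat.mul_le_mul_left z2 (v 10 (by norm_num))
    have := Nat.mul_le_mul_left z3 (v 11 (by norm_num))
    unfold V
    omega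
  have t1 := tM
  rw [← g] at t1
  replace t1 := ((Nat.testBit_and _ _ _).symm.trans t1)
  rw [tM, Bool.and_true, tb_pk _ _ _ (fun u hu => ?_) _ _ hu (by norm_num), e2, e3] at t1
  · have := Nat.ge_two_pow_of_testBit t1
    unfold V
    omega
  · have := bd u hu
    unfold V at this
    omega

theorem sub2 (a b : ℕ) (h : a + 1 < b) : b - 2 + 1 < b := by omega

theorem cellx {s l h : ℕ} {x : ℝ} (hs : s ≤ 2) (h1 : l < h) (h2 : h ≤ 31) (x1 : gr 0 l ≤ x)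
    (x2 : x ≤ gr 0 h) : ∃ (i : ℕ) (a : ℝ), 0 ≤ a ∧ a ≤ 1 ∧ x = gr s (i + a) ∧ x ≤ 23 / 32 ∧
      l >>> s ≤ i ∧ i + 1 < up s h ∧ 2 ^ s * i ≤ 30 ∧ up s h ≤ rr s := by
  have e : up s h = (h + (2 ^ s - 1)) / 2 ^ s + 1 := by
    rw [← msk_eq, ← Nat.shiftRight_eq_div_pow]; rfl
  have p : (0 : ℝ) < 2 ^ s := by positivity
  have q : (h : ℝ) ≤ 31 := by exact_mod_cast h2
  have k : l / 2 ^ s + 1 < up s h ∧ 2 ^ s * (up s h - 2) ≤ 30 ∧ up s h ≤ rr s ∧
      h ≤ 2 ^ s * (up s h - 2 + 1) := by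
    rw [e]
    interval_cases s
    · rw [show rr 0 = 32 from rfl]; omega
    · rw [show rr 1 = 17 from rfl]; omega
    · rw [show rr 2 = 9 from rfl]; omega
  simp only [gr, pow_zero, one_mul] at x1 x2
  set u : ℝ := 32 * (x + 1 / 4) / 2 ^ s with hu
  have u0 : ((l / 2 ^ s : ℕ) : ℝ) ≤ u := by
    refine Nat.cast_div_le.trans ?_
    push_cast
    exact div_le_div_of_nonneg_right (by linarith) p.le
  have u1 : u ≤ (up s h - 2 : ℕ) + 1 := by
    have : (h : ℝ) ≤ 2 ^ s * (((up s h - 2 : ℕ) : ℝ) + 1) := by exact_mod_cast k.2.2.2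
    rw [hu, div_le_iff₀ p]
    linarith
  have u2 : 0 ≤ u := le_trans (Nat.cast_nonneg _) u0
  refine ⟨min ⌊u⌋₊ (up s h - 2), u - (min ⌊u⌋₊ (up s h - 2) : ℕ), ?_, ?_, ?_, by linarith, ?_,
    lt_of_le_of_lt (Nat.succ_le_succ (min_le_right _ _)) (sub2 _ _ k.1),
    (Nat.mul_le_mul_left _ (min_le_right _ _)).trans k.2.1, k.2.2.1⟩
  · have : ((min ⌊u⌋₊ (up s h - 2) : ℕ) : ℝ) ≤ ⌊u⌋₊ := by exact_mod_cast min_le_left _ _
    linarith [Nat.floor_le u2]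
  · rcases min_choice ⌊u⌋₊ (up s h - 2) with t | t <;> rw [t]
    · linarith [Nat.lt_floor_add_one u]
    · linarith
  · rw [add_sub_cancel, gr, hu]
    field_simp
    ring
  · rw [Nat.shiftRight_eq_div_pow]
    exact le_min (Nat.le_floor u0) (Nat.le_sub_of_add_le k.1)

theorem comb (p q : ℕ) (l c F : ℝ) (h1 : p ≤ q ∨ l ≤ 2 ^ 24 * F) (h2 : 2 ^ 24 * F ≤ 2 ^ 26 - c) :
    ((p - q : ℕ) : ℝ) * l + ((q - p : ℕ) : ℝ) * c ≤
      2 ^ 24 * (((p : ℝ) - q) * F) + 2 ^ 26 * ((q - p : ℕ) : ℝ) := by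
  rcases le_or_gt p q with h | h
  · have : (p : ℝ) ≤ q := by exact_mod_cast h
    rw [Nat.sub_eq_zero_of_le h, Nat.cast_sub h]
    push_cast
    nlinarith
  · have : (q : ℝ) ≤ p := by exact_mod_cast h.le
    rw [Nat.sub_eq_zero_of_le h.le, Nat.cast_sub h.le]
    push_cast
    nlinarith [h1.resolve_left (by omega)]

theorem axis (p q s k i : ℕ) (a : ℝ) (hs : s ≤ 2) (hk : k ≤ 31) (hi : 2 ^ s * i ≤ 30) (a0 : 0 ≤ a)
    (a1 : a ≤ 1) (hd : p ≤ q ∨ Nat.land k (msk s) = 0) :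
    ((p - q : ℕ) : ℝ) * ((1 - a) * vx s k false i + a * vx s k false (i + 1)) +
      ((q - p : ℕ) : ℝ) * ((1 - a) * vx s k true i + a * vx s k true (i + 1)) ≤
      2 ^ 24 * (((p : ℝ) - q) * max (gr s (i + a) + 1 / 4) (k / 32)) + 2 ^ 26 * ((q - p : ℕ) : ℝ) := by
  have s4 : 2 ^ s ≤ 4 := Nat.pow_le_pow_right two_pos hs
  have e0 : i * 2 ^ s ≤ 30 := mul_comm i _ ▸ hi
  have e1 : (i + 1) * 2 ^ s ≤ 34 := by nlinarith
  have c0 := le_max_left ((i : ℝ) * 2 ^ s) k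
  have c1 := le_max_right ((i : ℝ) * 2 ^ s) k
  have c2 := le_max_left (((i : ℝ) + 1) * 2 ^ s) k
  have c3 := le_max_right (((i : ℝ) + 1) * 2 ^ s) k
  have d0 := le_max_left (gr s (i + a) + 1 / 4) (k / 32)
  have d1 := le_max_right (gr s (i + a) + 1 / 4) (k / 32)
  have g : gr s (i + a) + 1 / 4 = ((1 - a) * (i * 2 ^ s) + a * ((i + 1) * 2 ^ s)) / 32 := by
    unfold gr; ring
  refine comb p q _ _ _ (hd.imp_right fun z => ?_) ?_
  · rw [vx_f, vx_f]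
    have z' : k % 2 ^ s = 0 := by rw [← Nat.and_two_pow_sub_one_eq_mod, ← msk_eq]; exact z
    obtain ⟨t, rfl⟩ := Nat.dvd_of_mod_eq_zero z'
    rcases le_or_gt t i with h | h
    · rw [mul_comm (2 ^ s) t, max_eq_left (Nat.mul_le_mul_right _ h),
        max_eq_left (Nat.mul_le_mul_right _ (h.trans (Nat.le_succ i))), mul_comm t]
      rw [g] at d0 ⊢
      push_cast at d0 ⊢
      linarith
    · rw [mul_comm (2 ^ s) t, max_eq_right (Nat.mul_le_mul_right _ h.le),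
        max_eq_right (Nat.mul_le_mul_right _ h), mul_comm t]
      push_cast at d1 ⊢
      linarith
  · rw [vx_t, vx_t, Nat.cast_sub (by omega), Nat.cast_sub (by omega)]
    push_cast
    have : max (gr s (i + a) + 1 / 4) (k / 32) ≤
        ((1 - a) * max ((i : ℝ) * 2 ^ s) k + a * max (((i : ℝ) + 1) * 2 ^ s) k) / 32 := by
      refine max_le ?_ ?_
      · rw [g]
        nlinarith
      · nlinarith
    nlinarith

theorem tri_ge (F : ℕ → ℕ → ℕ → ℕ) (β i j k : ℕ) (a b c : ℝ) (a0 : 0 ≤ a) (a1 : a ≤ 1) (b0 : 0 ≤ b)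
    (b1 : b ≤ 1) (c0 : 0 ≤ c) (c1 : c ≤ 1)
    (h : ∀ d e f, d ≤ 1 → e ≤ 1 → f ≤ 1 → β ≤ F (i + d) (j + e) (k + f)) : (β : ℝ) ≤ tri F i j k a b c := by
  have cv : ∀ t x y : ℝ, 0 ≤ t → t ≤ 1 → β ≤ x → β ≤ y → β ≤ (1 - t) * x + t * y :=
    fun t x y _ _ _ _ => by nlinarith
  have r : ∀ d e f, d ≤ 1 → e ≤ 1 → f ≤ 1 → (β : ℝ) ≤ F (i + d) (j + e) (k + f) :=
    fun d e f x y z => by exact_mod_cast h d e f x y z
  have o := le_refl 1
  have z := zero_le_one (α := ℕ)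
  exact cv _ _ _ a0 a1
    (cv _ _ _ b0 b1 (cv _ _ _ c0 c1 (r 0 0 0 z z z) (r 0 0 1 z z o))
      (cv _ _ _ c0 c1 (r 0 1 0 z o z) (r 0 1 1 z o o)))
    (cv _ _ _ b0 b1 (cv _ _ _ c0 c1 (r 1 0 0 o z z) (r 1 0 1 o z o))
      (cv _ _ _ c0 c1 (r 1 1 0 o o z) (r 1 1 1 o o o)))

theorem win {s k0 e : ℕ} (hs : s ≤ 2) (h1 : k0 ≤ e) (h2 : e ≤ rr s) : rr s ≤ 32 ∧ wk s k0 ≤ k0 ∧
    k0 + (e - k0) ≤ wk s k0 + ww s k0 (e - k0) ∧ wk s k0 + ww s k0 (e - k0) ≤ 32 := by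
  interval_cases s
  · rw [show rr 0 = 32 from rfl] at h2 ⊢
    rw [show ww 0 k0 (e - k0) = (k0 + (e - k0) + 7) / 8 * 8 - k0 / 8 * 8 from rfl,
      show wk 0 k0 = k0 / 8 * 8 from rfl]
    omega
  · rw [show rr 1 = 17 from rfl] at h2 ⊢
    rw [show ww 1 k0 (e - k0) = 17 from rfl, show wk 1 k0 = 0 from rfl]
    omega
  · rw [show rr 2 = 9 from rfl] at h2 ⊢
    rw [show ww 2 k0 (e - k0) = 9 from rfl, show wk 2 k0 = 0 from rfl]
    omega

theorem tw_eq (F : ℕ → ℕ → ℕ → ℕ → ℕ → ℕ → ℕ → ℕ → ℕ → ℕ → ℕ → ℕ → ℕ → Bool)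
    (s l1 h1 l2 h2 l3 h3 k1 k2 k3 : ℕ) : tw F s l1 h1 l2 h2 l3 h3 k1 k2 k3 =
      F s (l1 >>> s) (up s h1 - l1 >>> s) (l2 >>> s) (up s h2 - l2 >>> s) (rr s) (wk s (l3 >>> s))
        (ww s (l3 >>> s) (up s h3 - l3 >>> s)) (l3 >>> s) (up s h3 - l3 >>> s) k1 k2 k3 := id rfl

end Tt

open Tt in
theorem ttS : TtS := by
  intro hs tb p1 q1 p2 q2 p3 q3 p4 q4 p5 q5 p6 q6 p7 q7 p8 q8 p9 q9 z1 z2 z3 τ s l1 h1 l2 h2 l3 h3
    k1 k2 k3 p q r H hb hz hτ s2 a1 a2 a3 a4 a5 a6 b1 b2 b3 d1 d2 d3 x1 x2 x3 x4 x5 x6 hg hr h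
  obtain ⟨i, a, i1, i2, rfl, i4, i5, i6, i7, i8⟩ := cellx s2 a1 a2 x1 x2
  obtain ⟨j, b, j1, j2, rfl, j4, j5, j6, j7, j8⟩ := cellx s2 a3 a4 x3 x4
  obtain ⟨k, c, c1, c2, rfl, c4, c5, c6, c7, c8⟩ := cellx s2 a5 a6 x5 x6
  obtain ⟨ok, an⟩ := H.cell s i j k a b c s2 i7 j7 c7 i1 i2 j1 j2 c1 c2 i4 j4 c4 hg hr
  obtain ⟨w1, w2, w3, w4⟩ := win (k0 := l3 >>> s) (e := up s h3) s2 (by omega) c8
  rw [tw_eq] at h
  have P := pt H hb hz hτ s2 b1 b2 b3 (i0 := l1 >>> s) (n := up s h1 - l1 >>> s) (j0 := l2 >>> s)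
    (m := up s h2 - l2 >>> s) (by omega) (by omega) w1 w2 w3 w4 h
  have T := tri_ge (V tb p1 q1 p2 q2 p3 q3 p4 q4 p5 q5 p6 q6 p7 q7 p8 q8 p9 q9 z1 z2 z3 s k1 k2 k3)
    (2 ^ 24 * τ) i j k a b c i1 i2 j1 j2 c1 c2 fun d e f u v w => P _ _ _ (by omega) (by omega) (by omega)
      (by omega) (by omega) (by omega) (ok d e f u v w)
  have z : ∀ p q : ℕ, p ≤ q ∨ Nat.land 0 (msk s) = 0 := fun _ _ => Or.inr (Nat.zero_and _)
  have m0 : ∀ (i : ℕ) (a : ℝ), 0 ≤ a → max (gr s (i + a) + 1 / 4) (((0 : ℕ) : ℝ) / 32) =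
      gr s (i + a) + 1 / 4 := fun i a a0 => max_eq_left (by
    rw [gr, Nat.cast_zero, zero_div, sub_add_cancel]; positivity)
  have t1 := comb p1 q1 _ _ _ (Or.inr (an 0 (by norm_num)).1) (an 0 (by norm_num)).2
  have t2 := comb p2 q2 _ _ _ (Or.inr (an 1 (by norm_num)).1) (an 1 (by norm_num)).2
  have t3 := comb p3 q3 _ _ _ (Or.inr (an 2 (by norm_num)).1) (an 2 (by norm_num)).2
  have t4 := axis p4 q4 s 0 i a s2 (by norm_num) i7 i1 i2 (z _ _)
  have t5 := axis p5 q5 s 0 j b s2 (by norm_num) j7 j1 j2 (z _ _)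
  have t6 := axis p6 q6 s 0 k c s2 (by norm_num) c7 c1 c2 (z _ _)
  have t7 := axis p7 q7 s k1 i a s2 b1 i7 i1 i2 d1
  have t8 := axis p8 q8 s k2 j b s2 b2 j7 j1 j2 d2
  have t9 := axis p9 q9 s k3 k c s2 b3 c7 c1 c2 d3
  have wd := fun (m : ℕ) (hm : m < 3) (z : ℕ) => mul_le_mul_of_nonneg_left
    (H.wd s i j k a b c s2 i7 j7 c7 i1 i2 j1 j2 c1 c2 i4 j4 c4 hg hr m hm) (Nat.cast_nonneg (α := ℝ) z)
  have u1 := wd 0 (by norm_num) z1
  have u2 := wd 1 (by norm_num) z2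
  have u3 := wd 2 (by norm_num) z3
  rw [m0 _ _ i1] at t4
  rw [m0 _ _ j1] at t5
  rw [m0 _ _ c1] at t6
  simp only [fn, if_true, one_ne_zero, if_false, OfNat.ofNat_ne_zero, OfNat.ofNat_ne_one,
    Nat.reduceAdd] at t1 t2 t3
  simp only [nb, Nat.add_eq, Nat.sub_eq, Nat.cast_add]
  simp only [tri, V, Nat.cast_add, Nat.cast_mul, Nat.cast_pow, Nat.cast_ofNat, Nat.reduceAdd] at T t1 t2 t3 u1 u2 u3
  linarith

end Pool.Agent.Lib.MP_f3b2fd_co.KL
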