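import Pool.Agent.Lib.MP_f3b2fd_co.KEP.B.St

/-! Grid tables for the angles of a spherical triangle: statement. -/

namespace Pool.Agent.Lib.MP_f3b2fd_co.KL

open Real KEP

/-- the lane number `i` of width 64. -/
def lane (T i : ℕ) : ℕ := T >>> (64 * i) % 2 ^ 64

/-- `tb s m i` is the plane `i` of the table `m` of level `s`; this is its entry `j, k`. -/
def val (tb : ℕ → ℕ → ℕ → ℕ) (s m i j k : ℕ) : ℕ := lane (tb s m i) (32 * j + k)

noncomputable section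

/-- trilinear interpolation in the cell `i, j, k`. -/
def tri (F : ℕ → ℕ → ℕ → ℕ) (i j k : ℕ) (a b c : ℝ) : ℝ :=
  (1 - a) * ((1 - b) * ((1 - c) * F i j k + c * F i j (k + 1)) +
      b * ((1 - c) * F i (j + 1) k + c * F i (j + 1) (k + 1))) +
    a * ((1 - b) * ((1 - c) * F (i + 1) j k + c * F (i + 1) j (k + 1)) +
      b * ((1 - c) * F (i + 1) (j + 1) k + c * F (i + 1) (j + 1) (k + 1)))

/-- the cosine with grid coordinate `t` on level `s`. -/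
def gr (s : ℕ) (t : ℝ) : ℝ := 2 ^ s * t / 32 - 1 / 4

/-- the six tabulated functions of the cosines `p = x a b`, `q = x b c`, `r = x c a`. -/
def fn (m : ℕ) (p q r : ℝ) : ℝ :=
  if m = 0 then ang p r q else if m = 1 then ang q p r else if m = 2 then ang r q p
  else if m = 3 then p + 1 / 4 else if m = 4 then q + 1 / 4 else r + 1 / 4

/-- the weighted signed angles along the three sides. -/
def wf (m : ℕ) (p q r : ℝ) : ℝ :=
  if m = 0 then max (1 / 2 - p) 0 * (fn 0 p q r + fn 1 p q r - fn 2 p q r)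
  else if m = 1 then max (1 / 2 - q) 0 * (fn 1 p q r + fn 2 p q r - fn 0 p q r)
  else max (1 / 2 - r) 0 * (fn 2 p q r + fn 0 p q r - fn 1 p q r)

end

/-- tables `0..2` are lower bounds, tables `6..8` complements of upper bounds, and bit 63 of
table `12` marks the grid points in use. Level `s` has step `2 ^ s / 32`. -/
structure HullS (hs : ℝ) (tb : ℕ → ℕ → ℕ → ℕ) : Prop where
  le : ∀ s m i j k, s ≤ 2 → m < 12 → i < 32 → j < 32 → k < 32 → val tb s m i j k ≤ 2 ^ 26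
  cell : ∀ (s i j k : ℕ) (a b c : ℝ), s ≤ 2 → 2 ^ s * i ≤ 30 → 2 ^ s * j ≤ 30 → 2 ^ s * k ≤ 30 →
    0 ≤ a → a ≤ 1 → 0 ≤ b → b ≤ 1 → 0 ≤ c → c ≤ 1 →
    gr s (i + a) ≤ 23 / 32 → gr s (j + b) ≤ 23 / 32 → gr s (k + c) ≤ 23 / 32 →
    0 < gram (gr s (i + a)) (gr s (j + b)) (gr s (k + c)) →
    hs ^ 2 * cof (gr s (i + a)) (gr s (j + b)) (gr s (k + c)) <
      4 * gram (gr s (i + a)) (gr s (j + b)) (gr s (k + c)) →
    (∀ d e f, d ≤ 1 → e ≤ 1 → f ≤ 1 → (val tb s 12 (i + d) (j + e) (k + f)).testBit 63 = true) ∧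
    ∀ m < 3, tri (val tb s m) i j k a b c ≤
        2 ^ 24 * fn m (gr s (i + a)) (gr s (j + b)) (gr s (k + c)) ∧
      2 ^ 24 * fn m (gr s (i + a)) (gr s (j + b)) (gr s (k + c)) ≤
        2 ^ 26 - tri (val tb s (m + 6)) i j k a b c
  wd : ∀ (s i j k : ℕ) (a b c : ℝ), s ≤ 2 → 2 ^ s * i ≤ 30 → 2 ^ s * j ≤ 30 → 2 ^ s * k ≤ 30 →
    0 ≤ a → a ≤ 1 → 0 ≤ b → b ≤ 1 → 0 ≤ c → c ≤ 1 →
    gr s (i + a) ≤ 23 / 32 → gr s (j + b) ≤ 23 / 32 → gr s (k + c) ≤ 23 / 32 →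
    0 < gram (gr s (i + a)) (gr s (j + b)) (gr s (k + c)) →
    hs ^ 2 * cof (gr s (i + a)) (gr s (j + b)) (gr s (k + c)) <
      4 * gram (gr s (i + a)) (gr s (j + b)) (gr s (k + c)) →
    ∀ m < 3, tri (val tb s (m + 9)) i j k a b c ≤
      2 ^ 24 * (2 - wf m (gr s (i + a)) (gr s (j + b)) (gr s (k + c)))

end Pool.Agent.Lib.MP_f3b2fd_co.KL
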