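import Pool.Agent.Lib.MP_f3b2fd_co.KEP.B.L.St
import Pool.Agent.Lib.MP_f3b2fd_co.KEP.N.Simd
import Pool.Agent.Lib.MP_f3b2fd_co.KEP.B.EnumB

/-! The leaf check: a linear combination of the constraints of a labelled complex. -/

namespace Pool.Agent.Lib.MP_f3b2fd_co.KL

open Real KEP KS
open En hiding ix fld pc tb

noncomputable section

def fN (a : ℕ) (k : ℕ → ℕ) : ℕ := Nat.rec (k 0) (fun n _ => k n) (Nat.succ a)
def fB (a : ℕ) (k : ℕ → Bool) : Bool := Nat.rec (k 0) (fun n _ => k n) (Nat.succ a)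
def cd (c : Bool) (x y : ℕ) : ℕ := Bool.rec y x c
def an (c d : Bool) : Bool := Bool.rec false d c
def orr (c d : Bool) : Bool := Bool.rec d true c
def fld (c o m : ℕ) : ℕ := Nat.land (Nat.shiftRight c o) m
def mx (a b : ℕ) : ℕ := cd (Nat.ble a b) b a
def mn (a b : ℕ) : ℕ := cd (Nat.ble a b) a b
def msk (w : ℕ) : ℕ := Nat.sub (Nat.shiftLeft 1 w) 1
def ones (W n : ℕ) : ℕ := Nat.div (msk (Nat.mul W n)) (msk W)

/-! ### the test for one triangle -/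

def row (tb : ℕ → ℕ → ℕ → ℕ) (s t i j : ℕ) : ℕ := fld (tb s t i) (Nat.mul 2048 j) (msk 2048)

/-- the rows below `R` of a plane, cut to the `W` lanes from `kw` on. -/
def rp (tb : ℕ → ℕ → ℕ → ℕ) (s t i R kw W : ℕ) : ℕ :=
  pk (Nat.mul 64 W) R fun j => fld (row tb s t i j) (Nat.mul 64 kw) (msk (Nat.mul 64 W))

def vx (s k : ℕ) (c : Bool) (i : ℕ) : ℕ :=
  cd c (Nat.sub 67108864 (Nat.mul 524288 (mx (Nat.shiftLeft i s) k)))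
    (Nat.mul 524288 (mx (Nat.shiftLeft i s) k))

def term (p q L C : ℕ) : ℕ :=
  cd (Nat.beq p q) 0 (cd (Nat.ble q p) (Nat.mul (Nat.sub p q) L) (Nat.mul (Nat.sub q p) C))

def pl (tb : ℕ → ℕ → ℕ → ℕ) (s t j0 m R kw W i : ℕ) : ℕ :=
  fld (cd (Nat.beq W 32) (tb s t i) (rp tb s t i R kw W)) (Nat.mul (Nat.mul 64 W) j0)
    (msk (Nat.mul (Nat.mul 64 W) m))

def km (m kw W k0 w : ℕ) : ℕ :=
  Nat.mul (Nat.shiftLeft (msk (Nat.mul 64 w)) (Nat.mul 64 (Nat.sub k0 kw))) (ones (Nat.mul 64 W) m)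

def pm (tb : ℕ → ℕ → ℕ → ℕ) (s j0 m R kw W k0 w i : ℕ) : ℕ :=
  Nat.land (pl tb s 12 j0 m R kw W i) (km m kw W k0 w)

def y2 (s k : ℕ) (c : Bool) (j0 m w : ℕ) : ℕ :=
  Nat.mul (ones 64 w) (pk (Nat.mul 64 w) m fun b => vx s k c (Nat.add j0 b))

def y3 (s k : ℕ) (c : Bool) (k0 m w : ℕ) : ℕ :=
  Nat.mul (pk 64 w fun d => vx s k c (Nat.add k0 d)) (ones (Nat.mul 64 w) m)

def df (p q : ℕ) : ℕ := Nat.add (Nat.sub p q) (Nat.sub q p)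
def sl (p q t : ℕ) : ℕ := cd (Nat.ble q p) t (Nat.add t 6)

def zt (b T : ℕ) : ℕ := cd (Nat.beq b 0) 0 (Nat.mul b T)

def tp (tb : ℕ → ℕ → ℕ → ℕ) (w1 t1 w2 t2 w3 t3 w4 : ℕ) (c4 : Bool) (w7 : ℕ) (c7 : Bool)
    (b1 b2 b3 B O s j0 m R kw W k0 w k1 i : ℕ) : Bool :=
  Nat.beq (Nat.land (Nat.add (Nat.add
      (Nat.add (Nat.mul w1 (pl tb s t1 j0 m R kw W i)) (Nat.mul w2 (pl tb s t2 j0 m R kw W i)))
      (Nat.add (Nat.mul w3 (pl tb s t3 j0 m R kw W i)) B))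
      (Nat.add (Nat.mul (Nat.add (Nat.mul w4 (vx s 0 c4 i)) (Nat.mul w7 (vx s k1 c7 i))) O)
        (Nat.add (Nat.add (zt b1 (pl tb s 9 j0 m R kw W i)) (zt b2 (pl tb s 10 j0 m R kw W i)))
          (zt b3 (pl tb s 11 j0 m R kw W i)))))
    (pm tb s j0 m R kw W k0 w i)) (pm tb s j0 m R kw W k0 w i)

def al (n i0 : ℕ) (p : ℕ → Bool) : Bool :=
  Nat.rec true (fun a r => an (fB (Nat.add i0 a) p) r) n

def bo (c : Bool) (k : Bool → Bool) : Bool := Bool.rec (k false) (k true) c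

def tt (tb : ℕ → ℕ → ℕ → ℕ)
    (p1 q1 p2 q2 p3 q3 p4 q4 p5 q5 p6 q6 p7 q7 p8 q8 p9 q9 b1 b2 b3 τ s i0 n j0 m R kw W k0 w k1 k2 k3 : ℕ) : Bool :=
  fB (df p1 q1) fun w1 => fB (sl p1 q1 0) fun t1 => fB (df p2 q2) fun w2 => fB (sl p2 q2 1) fun t2 =>
  fB (df p3 q3) fun w3 => fB (sl p3 q3 2) fun t3 => fB (df p4 q4) fun w4 => bo (Nat.ble p4 q4) fun c4 =>
  fB (df p7 q7) fun w7 => bo (Nat.ble p7 q7) fun c7 =>
  al n i0 (tp tb w1 t1 w2 t2 w3 t3 w4 c4 w7 c7 b1 b2 b3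
    (Nat.add (Nat.add (Nat.add (term p5 q5 (y2 s 0 false j0 m W) (y2 s 0 true j0 m W))
        (term p8 q8 (y2 s k2 false j0 m W) (y2 s k2 true j0 m W)))
      (Nat.add (term p6 q6 (y3 s 0 false kw m W) (y3 s 0 true kw m W))
        (term p9 q9 (y3 s k3 false kw m W) (y3 s k3 true kw m W))))
      (Nat.mul (Nat.sub 9223372036854775808 (Nat.shiftLeft τ 24)) (ones 64 (Nat.mul W m))))
    (ones 64 (Nat.mul W m)) s j0 m R kw W k0 w k1)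


def up (s hi : ℕ) : ℕ := Nat.succ (Nat.shiftRight (Nat.add hi (msk s)) s)

def rr (s : ℕ) : ℕ := mn 32 (Nat.succ (Nat.shiftRight 32 s))
def wk (s k0 : ℕ) : ℕ := cd (Nat.beq s 0) (Nat.mul (Nat.div k0 8) 8) 0
def ww (s k0 w : ℕ) : ℕ :=
  cd (Nat.beq s 0) (Nat.sub (Nat.mul (Nat.div (Nat.add (Nat.add k0 w) 7) 8) 8) (wk s k0)) (rr s)

/-- the box is rounded outwards to the grid of level `s`. -/
def tw (F : ℕ → ℕ → ℕ → ℕ → ℕ → ℕ → ℕ → ℕ → ℕ → ℕ → ℕ → ℕ → ℕ → Bool)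
    (s l1 h1 l2 h2 l3 h3 k1 k2 k3 : ℕ) : Bool :=
  fB s fun s => fB (Nat.shiftRight l1 s) fun i0 => fB (Nat.sub (up s h1) i0) fun n =>
    fB (Nat.shiftRight l2 s) fun j0 => fB (Nat.sub (up s h2) j0) fun m =>
    fB (Nat.shiftRight l3 s) fun k0 => fB (Nat.sub (up s h3) k0) fun w =>
    fB (rr s) fun R => fB (wk s k0) fun kw => fB (ww s k0 w) fun W =>
    fB k1 fun k1 => fB k2 fun k2 => fB k3 fun k3 => F s i0 n j0 m R kw W k0 w k1 k2 k3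

/-! ### edges -/

/-- an upper bound of `2 ^ 24 (c + 1 / 4)`, `c` the largest cosine for the heights `i, j`. -/
def cc (i j : ℕ) : ℕ :=
  Nat.add 4194305 (Nat.div (Nat.mul 8388608 (Nat.sub (Nat.add (Nat.mul (Nat.add 128 i) (Nat.add 128 i))
    (Nat.mul (Nat.add 128 j) (Nat.add 128 j))) 16384)) (Nat.mul (Nat.add 128 i) (Nat.add 128 j)))

def he (lo hi ha hb : ℕ) : ℕ :=
  mx (Nat.succ lo) (mn hi (Nat.shiftRight (Nat.add (cc ha hb) 524287) 19))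

def ix (a b : ℕ) : ℕ := Nat.add (Nat.mul 16 a) b
def key (a b : ℕ) : ℕ := cd (Nat.ble b a) (ix b a) (ix a b)
def bit (E i : ℕ) : Bool := Nat.beq (fld E i 1) 1
def blo (LO a b : ℕ) : ℕ := fld LO (Nat.mul 8 (ix a b)) 255
def hlo (LO a : ℕ) : ℕ := fld LO (Nat.mul 136 a) 255

/-- the multipliers of the edge `a b`. -/
def ent (IX ce a b : ℕ) : ℕ :=
  fld ce (Nat.mul 88 (fld IX (Nat.mul 8 (key a b)) 255)) 309485009821345068724781055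

/-- the multiplier of the weighted row of the edge `a b`. -/
def eb (IX ce a b : ℕ) : ℕ :=
  fld ce (Nat.add 3520 (Nat.mul 20 (fld IX (Nat.mul 8 (key a b)) 255))) 1048575

/-- the coefficients along a dart with first edge `a b`. -/
def dr (E IX ce κ : ℕ) (md : Bool) (LO HI a b : ℕ)
    (K : ℕ → ℕ → ℕ → ℕ → ℕ → ℕ → ℕ → ℕ → ℕ → ℕ → Bool) : Bool :=
  fB (ent IX ce a b) fun e => Bool.rec
    (an (orr (orr md (Nat.ble 12 (blo LO a b))) (orr (Nat.ble (blo HI a b) 12) (Nat.beq κ 0)))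
      (K (cd (orr md (Nat.ble 12 (blo LO a b))) 0 κ) 0 0 (fld e 20 1048575) 0 (fld e 20 1048575)
        (fld e 80 31) (blo LO a b) (blo HI a b) 0))
    (Bool.rec
      (K (fld e 0 1048575) (fld e 40 1048575) 524288 (Nat.add (fld e 20 1048575) (fld e 60 1048575))
        524288 (fld e 20 1048575) (fld e 80 31) (blo LO a b) (blo HI a b) (eb IX ce a b))
      (K (fld e 0 1048575) 524288 (fld e 40 1048575) 524288 (fld e 60 1048575) 0 (fld e 80 31)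
        (blo LO a b) (blo HI a b) (eb IX ce a b))
      (Nat.ble b a))
    (bit E (ix b a))

def kk (s p q k σ hi la lb : ℕ) : Bool :=
  an (orr (Nat.ble p q) (Nat.beq (Nat.land k (msk s)) 0))
    (an (orr (Nat.beq σ 0) (Nat.ble (Nat.mul 524288 k) (cc la lb))) (Nat.ble hi 31))

def sp (σ a b la ha lb hb : ℕ) : ℕ :=
  cd (Nat.beq σ 0) 0 (Nat.add
    (Nat.shiftLeft (Nat.mul σ (Nat.sub (Nat.succ (cc ha lb)) (cc la lb))) (Nat.mul 64 a))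
    (Nat.shiftLeft (Nat.mul σ (Nat.sub (Nat.succ (cc la hb)) (cc la lb))) (Nat.mul 64 b)))

def nb (p1 q1 p2 q2 p3 q3 : ℕ) : ℕ := Nat.add (Nat.add (Nat.sub q1 p1) (Nat.sub q2 p2)) (Nat.sub q3 p3)

def t4 (tb : ℕ → ℕ → ℕ → ℕ) (K : ℕ → ℕ → Bool) (tc ma mb mc a b c la ha lb hb lc hc
    u1 p1 q1 r1 s1 σ1 k1 l1 h1 b1 u2 p2 q2 r2 s2 σ2 k2 l2 h2 b2 u3 p3 q3 r3 s3 σ3 k3 l3 h3 b3 : ℕ) : Bool :=
  an (an (an (kk (fld tc 24 3) r1 s1 k1 σ1 (he l1 h1 ha hb) la lb)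
        (kk (fld tc 24 3) r2 s2 k2 σ2 (he l2 h2 hb hc) lb lc))
      (an (kk (fld tc 24 3) r3 s3 k3 σ3 (he l3 h3 hc ha) lc la) (Nat.ble (fld tc 24 3) 2)))
    (an (tw (tt tb (Nat.add ma u2) (Nat.add 524288 (Nat.add u1 u3)) (Nat.add mb u3)
        (Nat.add 524288 (Nat.add u2 u1)) (Nat.add mc u1) (Nat.add 524288 (Nat.add u3 u2))
        p1 q1 p2 q2 p3 q3 r1 s1 r2 s2 r3 s3 b1 b2 b3 (fld tc 0 16777215)) (fld tc 24 3)
        l1 (he l1 h1 ha hb) l2 (he l2 h2 hb hc) l3 (he l3 h3 hc ha) k1 k2 k3)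
      (K (Nat.add (Nat.mul 67108864 (Nat.add (Nat.add
          (nb (Nat.add ma u2) (Nat.add 524288 (Nat.add u1 u3)) (Nat.add mb u3)
            (Nat.add 524288 (Nat.add u2 u1)) (Nat.add mc u1) (Nat.add 524288 (Nat.add u3 u2)))
          (nb p1 q1 p2 q2 p3 q3)) (nb r1 s1 r2 s2 r3 s3)))
          (Nat.add (Nat.add (Nat.add (Nat.mul σ1 (cc la lb)) (Nat.mul σ2 (cc lb lc)))
            (Nat.mul σ3 (cc lc la))) (Nat.mul 33554432 (Nat.add (Nat.add b1 b2) b3))))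
        (Nat.add (Nat.add (sp σ1 a b la ha lb hb) (sp σ2 b c lb hb lc hc)) (sp σ3 c a lc hc la ha))))

def t3 (D : ℕ → ℕ → (ℕ → ℕ → ℕ → ℕ → ℕ → ℕ → ℕ → ℕ → ℕ → ℕ → Bool) → Bool)
    (tb : ℕ → ℕ → ℕ → ℕ) (K : ℕ → ℕ → Bool) (tc ma mb mc a b c la ha lb hb lc hc
    u1 p1 q1 r1 s1 σ1 k1 l1 h1 b1 u2 p2 q2 r2 s2 σ2 k2 l2 h2 b2 : ℕ) : Bool :=
  D c a (t4 tb K tc ma mb mc a b c la ha lb hb lc hc
    u1 p1 q1 r1 s1 σ1 k1 l1 h1 b1 u2 p2 q2 r2 s2 σ2 k2 l2 h2 b2)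

def t2 (D : ℕ → ℕ → (ℕ → ℕ → ℕ → ℕ → ℕ → ℕ → ℕ → ℕ → ℕ → ℕ → Bool) → Bool)
    (tb : ℕ → ℕ → ℕ → ℕ) (K : ℕ → ℕ → Bool) (tc ma mb mc a b c la ha lb hb lc hc
    u1 p1 q1 r1 s1 σ1 k1 l1 h1 b1 : ℕ) : Bool :=
  D b c (t3 D tb K tc ma mb mc a b c la ha lb hb lc hc u1 p1 q1 r1 s1 σ1 k1 l1 h1 b1)

def mv (cv v : ℕ) : ℕ := fld cv (Nat.add 40 (Nat.mul 20 v)) 1048575

def t1 (D : ℕ → ℕ → (ℕ → ℕ → ℕ → ℕ → ℕ → ℕ → ℕ → ℕ → ℕ → ℕ → Bool) → Bool)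
    (tb : ℕ → ℕ → ℕ → ℕ) (cv LO HI a b c tc : ℕ) (K : ℕ → ℕ → Bool) : Bool :=
  fB (hlo LO a) fun la => fB (hlo HI a) fun ha => fB (hlo LO b) fun lb => fB (hlo HI b) fun hb =>
    fB (hlo LO c) fun lc => fB (hlo HI c) fun hc =>
      D a b (t2 D tb K tc (mv cv a) (mv cv b) (mv cv c) a b c la ha lb hb lc hc)

/-- the loop over the triangles. -/
def go (T : ℕ → ℕ → ℕ → ℕ → (ℕ → ℕ → Bool) → Bool) (F : ℕ → ℕ → ℕ → Bool) (L : List Tr) :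
    ℕ → ℕ → ℕ → ℕ → Bool :=
  List.rec (fun _ p q S => F p q S) (fun t _ ih ct p q S =>
    Prod.rec (fun a r => Prod.rec (fun b c => T a b c (Nat.land ct 268435455) fun dq dS =>
      ih (Nat.shiftRight ct 28) (Nat.add p (Nat.land ct 16777215)) (Nat.add q dq) (Nat.add S dS)) r) t) L

/-! ### vertices -/

def yv (yt j : ℕ) : ℕ := fld yt (Nat.mul 32 j) 4294967295
def ev (yt κ LO v : ℕ) : ℕ := Nat.div (Nat.mul (Nat.mul κ 21) (yv yt (hlo LO v))) 209715200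
def kv (KV v : ℕ) : ℕ := fld KV (Nat.mul 8 v) 255
def rv (κ ρ KV v : ℕ) : ℕ := Nat.add ρ (Nat.div (Nat.mul (Nat.mul κ 21) (kv KV v)) 400)

def vs (yt cv κ ρ LO HI KV CL S v : ℕ) (ih : ℕ → ℕ → Bool) (p q : ℕ) : Bool :=
  an (an (Nat.ble (hlo HI v) 37)
      (orr (bit CL v) (Nat.ble (Nat.add (Nat.add 524288 (Nat.mul 16 κ)) (ev yt κ LO v)) (mv cv v))))
    (ih (Nat.add p (Nat.add
        (Nat.mul 105414357 (Nat.add (Nat.add 524288 (Nat.mul 16 κ)) (ev yt κ LO v)))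
        (Nat.mul (rv κ ρ KV v) (yv yt (hlo HI v)))))
      (Nat.add q (Nat.add (Nat.add (Nat.mul 105414358 (mv cv v))
        (Nat.mul (Nat.mul (ev yt κ LO v) (kv KV v)) 524288))
        (mx (Nat.mul (rv κ ρ KV v) (Nat.sub (yv yt (hlo HI v)) (yv yt (hlo LO v))))
          (fld S (Nat.mul 64 v) 18446744073709551615)))))

def vl (yt cv κ ρ LO HI KV CL S n : ℕ) : ℕ → ℕ → Bool :=
  Nat.rec (fun p q => Nat.ble (Nat.succ q) p) (fun v ih => vs yt cv κ ρ LO HI KV CL S v ih) n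

def fi (yt cv κ ρ LO HI KV CL BN YN n p q S : ℕ) : Bool :=
  vl yt cv κ ρ LO HI KV CL S n (Nat.shiftLeft p 24)
    (Nat.add q (Nat.add (Nat.mul (Nat.mul 16 κ) BN) (Nat.mul ρ YN)))

def i1 (E a b : ℕ) (K : ℕ → ℕ → ℕ) (X d : ℕ) : ℕ :=
  Bool.rec (K (Nat.add X (Nat.shiftLeft d (Nat.mul 8 (key a b)))) (Nat.succ d)) (K X d)
    (an (Nat.ble b a) (bit E (ix b a)))

/-- the numbering of the edges in the order of the list. -/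
def mkIx (E : ℕ) (L : List Tr) : ℕ :=
  List.rec (motive := fun _ => ℕ → ℕ → ℕ) (fun X _ => X) (fun t _ ih =>
    i1 E t.1 t.2.1 (i1 E t.2.1 t.2.2 (i1 E t.2.2 t.1 ih))) L 0 0

def len (L : List Tr) : ℕ := List.rec 0 (fun _ _ r => Nat.succ r) L

/-- the leaf check with certificate `c`. -/
def leaf (tb : ℕ → ℕ → ℕ → ℕ) (yt n : ℕ) (L : List Tr) (E CL KV BN YN : ℕ) (md : Bool)
    (LO HI c : ℕ) : Bool :=
  go (t1 (dr E (mkIx E L)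
      (Nat.shiftRight c (Nat.add (Nat.add 40 (Nat.mul 20 n)) (Nat.mul 28 (len L))))
      (fld c 20 1048575) md LO HI) tb c LO HI)
    (fi yt c (fld c 20 1048575) (fld c 0 1048575) LO HI KV CL BN YN n) L
    (Nat.shiftRight c (Nat.add 40 (Nat.mul 20 n))) 0 0 0

def mkE (L : List Tr) : ℕ := List.rec 0 (fun t _ r => addE r t.1 t.2.1 t.2.2) L
def mkT (L : List Tr) : ℕ := List.rec 0 (fun t _ r => addE r t.1 t.2.2 t.2.1) L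

/-- the mask of the closed vertices. -/
def mkC (L : List Tr) (n : ℕ) : ℕ :=
  pk 1 n fun v => cd (closedB (Nat.xor (mkE L) (mkT L)) v) 1 0

/-- lower bounds of `32` times the known angles; `am / 32` is a lower bound of every angle. -/
def mkK (am : ℕ) (L : List Tr) (n : ℕ) : ℕ :=
  pk 8 n fun v => cd (closedB (Nat.xor (mkE L) (mkT L)) v) 201
    (mn 201 (Nat.mul am (En.pc (Nat.shiftRight (mkE L) (Nat.mul 16 v)))))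

def yN (N : ℕ) : ℕ := Nat.add (Nat.mul 16777216 (Nat.sub N 12)) 16384

def bN (N l : ℕ) : ℕ :=
  Nat.sub (Nat.succ (Nat.div (Nat.mul 105414358 (Nat.add (Nat.mul 204800 N)
      (Nat.mul 21 (Nat.succ (Nat.mul 1024 (Nat.sub N 12)))))) 204800))
    (Nat.mul 61956216 (Nat.sub (Nat.sub (Nat.mul 2 N) 4) l))

/-- the leaf check in the form used by the driver. -/
def lf (tb : ℕ → ℕ → ℕ → ℕ) (yt am N n : ℕ) (L : List Tr) (LO HI c : ℕ) : Bool :=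
  leaf tb yt n L (mkE L) (mkC L n) (mkK am L n) (bN N (len L)) (yN N) (Nat.ble N 13) LO HI c

/-! ### statements -/

/-- the angle at `a`. -/
def aa (x : ℕ → ℕ → ℝ) (a b c : ℕ) : ℝ := ang (x a b) (x a c) (x b c)

/-- twice the signed angle along the side `a b`. -/
def ph (x : ℕ → ℕ → ℝ) (a b c : ℕ) : ℝ := aa x a b c + aa x b c a - aa x c a b

/-- the sum over the darts. -/
def sd (L : List Tr) (F : ℕ → ℕ → ℕ → ℝ) : ℝ := ((darts L).map fun t => F t.1 t.2.1 t.2.2).sum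

/-- the known angle at `v`. -/
def kw (x : ℕ → ℕ → ℝ) (L : List Tr) (v : ℕ) : ℝ := sd L fun a b c => if a = v then aa x a b c else 0

end

/-- what the leaf check uses: cosines `x`, heights `h`, deficits `y`. -/
structure Cx (hs : ℝ) (yt n : ℕ) (L : List Tr) (E CL KV BN YN : ℕ) (md : Bool) (LO HI : ℕ)
    (x : ℕ → ℕ → ℝ) (h y : ℕ → ℝ) : Prop where
  n_le : n ≤ 16
  len_le : L.length ≤ 1000
  lt : ∀ a b c, (a, b, c) ∈ darts L → a < n ∧ a ≠ b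
  symm : ∀ a b, x a b = x b a
  geo : ∀ a b c, (a, b, c) ∈ darts L → 0 < gram (x a b) (x b c) (x c a) ∧
    hs ^ 2 * cof (x a b) (x b c) (x c a) < 4 * gram (x a b) (x b c) (x c a)
  box : ∀ a b c, (a, b, c) ∈ darts L → gr 0 (blo LO a b) ≤ x a b ∧ x a b ≤ gr 0 (blo HI a b)
  hbox : ∀ v < n, 1 + (hlo LO v : ℝ) / 128 ≤ h v ∧ h v ≤ 1 + (hlo HI v : ℝ) / 128
  sep : ∀ a b c, (a, b, c) ∈ darts L → 2 * h a * h b * x a b ≤ h a ^ 2 + h b ^ 2 - 1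
  del : ∀ a b c d, (a, b, c) ∈ darts L → (b, a, d) ∈ darts L → 0 ≤ ph x a b c + ph x b a d
  pair : ∀ F : ℕ → ℕ → ℕ → ℝ,
    (∀ a b c d, (a, b, c) ∈ darts L → (b, a, d) ∈ darts L → 0 ≤ F a b c + F b a d) →
    0 ≤ sd L fun a b c => if bit E (ix b a) = true then F a b c else 0
  ang : ∀ v < n, kw x L v ≤ 2 * π ∧ (bit CL v = true → kw x L v = 2 * π) ∧
    (kv KV v : ℝ) / 32 ≤ kw x L v
  bud : ∀ g : ℕ → ℕ → Bool, (∀ a b c, (a, b, c) ∈ darts L → bit E (ix b a) = false →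
      (g a b = true → md = false ∧ x a b ≤ 1 / 8) ∧ (g a b = false → md = true ∨ 1 / 8 ≤ x a b)) →
    2 ^ 24 * sd L (fun a b c => (1 + 21 / 200 * y a) * aa x a b c -
      if bit E (ix b a) = false ∧ g a b = true then ph x a b c / 16 else 0) ≤ BN
  ysum : 2 ^ 24 * ∑ v ∈ Finset.range n, y v ≤ YN
  ych : ∀ v < n, 0 ≤ y v ∧ ∀ (i j : ℕ) (θ : ℝ), i ≤ j → j ≤ 37 → 0 ≤ θ → θ ≤ 1 →
    h v = 1 + ((1 - θ) * i + θ * j) / 128 → (1 - θ) * yv yt i + θ * yv yt j ≤ 2 ^ 24 * y v ∧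
      (yv yt i : ℝ) ≤ 2 ^ 24 * y v

/-- soundness of the test for one triangle. -/
def TtS : Prop := ∀ (hs : ℝ) (tb : ℕ → ℕ → ℕ → ℕ)
  (p1 q1 p2 q2 p3 q3 p4 q4 p5 q5 p6 q6 p7 q7 p8 q8 p9 q9 b1 b2 b3 τ s l1 h1 l2 h2 l3 h3 k1 k2 k3 : ℕ)
  (p q r : ℝ), HullS hs tb →
  p1 + q1 + p2 + q2 + p3 + q3 + p4 + q4 + p5 + q5 + p6 + q6 + p7 + q7 + p8 + q8 + p9 + q9 ≤ 2 ^ 30 →
  b1 + b2 + b3 ≤ 2 ^ 30 →
  τ ≤ 2 ^ 24 → s ≤ 2 → l1 < h1 → h1 ≤ 31 → l2 < h2 → h2 ≤ 31 → l3 < h3 → h3 ≤ 31 →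
  k1 ≤ 31 → k2 ≤ 31 → k3 ≤ 31 →
  (p7 ≤ q7 ∨ Nat.land k1 (msk s) = 0) → (p8 ≤ q8 ∨ Nat.land k2 (msk s) = 0) →
  (p9 ≤ q9 ∨ Nat.land k3 (msk s) = 0) →
  gr 0 l1 ≤ p → p ≤ gr 0 h1 → gr 0 l2 ≤ q → q ≤ gr 0 h2 → gr 0 l3 ≤ r → r ≤ gr 0 h3 →
  0 < gram p q r → hs ^ 2 * cof p q r < 4 * gram p q r →
  tw (tt tb p1 q1 p2 q2 p3 q3 p4 q4 p5 q5 p6 q6 p7 q7 p8 q8 p9 q9 b1 b2 b3 τ)
    s l1 h1 l2 h2 l3 h3 k1 k2 k3 = true →
  (τ : ℝ) ≤ 4 * ((nb p1 q1 p2 q2 p3 q3 : ℝ) + nb p4 q4 p5 q5 p6 q6 + nb p7 q7 p8 q8 p9 q9) +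
    (((p1 : ℝ) - q1) * ang p r q + ((p2 : ℝ) - q2) * ang q p r + ((p3 : ℝ) - q3) * ang r q p) +
    (((p4 : ℝ) - q4) * (p + 1 / 4) + ((p5 : ℝ) - q5) * (q + 1 / 4) + ((p6 : ℝ) - q6) * (r + 1 / 4)) +
    (((p7 : ℝ) - q7) * max (p + 1 / 4) (k1 / 32) + ((p8 : ℝ) - q8) * max (q + 1 / 4) (k2 / 32) +
      ((p9 : ℝ) - q9) * max (r + 1 / 4) (k3 / 32)) +
    ((b1 : ℝ) * (2 - wf 0 p q r) + (b2 : ℝ) * (2 - wf 1 p q r) + (b3 : ℝ) * (2 - wf 2 p q r))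

/-- the separation planes. -/
def SepS : Prop := ∀ (la ha lb hb : ℕ) (θ η h k x : ℝ), la ≤ ha → ha ≤ 37 → lb ≤ hb → hb ≤ 37 →
  0 ≤ θ → θ ≤ 1 → 0 ≤ η → η ≤ 1 → h = 1 + ((1 - θ) * la + θ * ha) / 128 →
  k = 1 + ((1 - η) * lb + η * hb) / 128 → 2 * h * k * x ≤ h ^ 2 + k ^ 2 - 1 →
  2 ^ 24 * (x + 1 / 4) ≤ cc ha hb ∧ cc ha lb ≤ 2 ^ 25 ∧ cc la hb ≤ 2 ^ 25 ∧
  2 ^ 24 * (x + 1 / 4) ≤ cc la lb + θ * (Nat.sub (Nat.succ (cc ha lb)) (cc la lb) : ℕ) +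
    η * (Nat.sub (Nat.succ (cc la hb)) (cc la lb) : ℕ)

/-- soundness of the leaf check. -/
def LeafS : Prop := ∀ (hs : ℝ) (tb : ℕ → ℕ → ℕ → ℕ) (yt n : ℕ) (L : List Tr) (E CL KV BN YN : ℕ)
  (md : Bool) (LO HI c : ℕ) (x : ℕ → ℕ → ℝ) (h y : ℕ → ℝ), HullS hs tb →
  Cx hs yt n L E CL KV BN YN md LO HI x h y → leaf tb yt n L E CL KV BN YN md LO HI c = true → False

end Pool.Agent.Lib.MP_f3b2fd_co.KL
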