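import Pool.Agent.Lib.MP_f3b2fd_co.KEP.B.L.Y
import Pool.Agent.Lib.MP_f3b2fd_co.KEP.B.Tau.St

/-! From a labelled part of a triangulation to the facts used by the leaf check. -/

namespace Pool.Agent.Lib.MP_f3b2fd_co.KL

open Real KEP KS
open En hiding ix fld pc tb

/-- `am / 32` is a lower bound of all angles. -/
def AmS (am : ℕ) : Prop := ∀ (V : Type) [Fintype V] [DecidableEq V] (t : Tri KD.hs V) (a b c : V),
  (a, b, c) ∈ t.T → (am : ℝ) / 32 ≤ t.A a b c

namespace Glue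

theorem pk_lane (w n : ℕ) (f : ℕ → ℕ) (h : ∀ i < n, f i < 2 ^ w) {v : ℕ} (hv : v < n) :
    fld (pk w n f) (w * v) (2 ^ w - 1) = f v := by
  obtain ⟨m, rfl⟩ : ∃ m, n = v + (1 + m) := ⟨n - v - 1, by omega⟩
  show (pk w (v + (1 + m)) f >>> (w * v)) &&& (2 ^ w - 1) = f v
  have h1 := pk_lt w v f fun i hi => h i (by omega)
  have h2 : pk w 1 (fun i => f (v + i)) = f v := by rw [pk_succ, pk_zero]; simp
  rw [pk_split, Nat.shiftRight_eq_div_pow, Nat.mul_add_div (by positivity), Nat.div_eq_of_lt h1,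
    add_zero, pk_split, h2, Nat.and_two_pow_sub_one_eq_mod, mul_one, Nat.mul_add_mod,
    Nat.mod_eq_of_lt (h v hv)]

theorem bit_eq (E a b : ℕ) : bit E (ix a b) = E.testBit (16 * a + b) := tb_eq E (16 * a + b)

theorem mkE_spec {L : List Tr} (h : ∀ a b c, (a, b, c) ∈ darts L → a < 16) :
    (∀ a b, b < 16 → ((mkE L).testBit (16 * a + b) = true ↔ Kn L a b)) ∧
      ∀ a b, b < 16 → ((mkT L).testBit (16 * a + b) = true ↔ Kn L b a) := by
  induction L with
  | nil => exact ⟨fun a b _ => by simp [mkE, Kn, darts], fun a b _ => by simp [mkT, Kn, darts]⟩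
  | cons t L ih =>
    obtain ⟨p, q, r⟩ := t
    obtain ⟨hE, hT⟩ := ih fun a b c m => h a b c (by simp [darts, m])
    have hp := h p q r (by simp [darts])
    have hq := h q r p (by simp [darts])
    have hr := h r p q (by simp [darts])
    refine ⟨fun a b hb => ?_, fun a b hb => ?_⟩
    · show (addE (mkE L) p q r).testBit _ = true ↔ _
      simp only [addE, test_lor, test_bt, ix_eq, Bool.or_eq_true, decide_eq_true_eq, hE a b hb,
        kn_cons]
      by_cases k : Kn L a b <;> simp only [k, or_true, true_or, false_or, or_false]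
      omega
    · show (addE (mkT L) p r q).testBit _ = true ↔ _
      simp only [addE, test_lor, test_bt, ix_eq, Bool.or_eq_true, decide_eq_true_eq, hT a b hb,
        kn_cons]
      by_cases k : Kn L b a <;> simp only [k, or_true, true_or, false_or, or_false]
      omega

theorem len_eq (L : List Tr) : len L = L.length := by
  induction L with
  | nil => rfl
  | cons t L ih => exact congrArg Nat.succ ih

theorem blo_eq (X a b : ℕ) : blo X a b = KD.ln X a b := by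
  show X >>> (8 * (16 * a + b)) &&& 255 = X >>> ((a <<< 4 + b) <<< 3) &&& 255
  rw [Nat.shiftLeft_eq, Nat.shiftLeft_eq]
  congr 2
  ring

theorem hlo_eq (X a : ℕ) : hlo X a = KD.ln X a a := by
  show X >>> (136 * a) &&& 255 = X >>> ((a <<< 4 + a) <<< 3) &&& 255
  rw [Nat.shiftLeft_eq, Nat.shiftLeft_eq]
  congr 2
  ring

theorem gr_eq (i : ℕ) : gr 0 i = KD.gx i := by
  unfold gr KD.gx
  ring

theorem hs_le : KD.hs ≤ 4 / 3 := by
  unfold KD.hs
  rw [div_le_iff₀ (by norm_num), Real.sqrt_le_left (by norm_num)]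
  norm_num

theorem sd_eq {n : ℕ} {L : List Tr} (o : Ok n L) (F : ℕ → ℕ → ℕ → ℝ) :
    sd L F = ∑ t ∈ (darts L).toFinset, F t.1 t.2.1 t.2.2 :=
  (List.sum_toFinset _ o.nodup).symm

theorem bN_nat : ∀ N ≤ 15, ∀ l ≤ 26, 13 ≤ N → l + 4 ≤ 2 * N →
    105414358 * (204800 * N + 21 * (1024 * N + 1)) + 204800 * 61956216 * (l + 4) ≤
      204800 * bN N l + 204800 * 61956216 * (2 * N) + 105414358 * 21 * 1024 * 12 := by
  decide +kernel

theorem bN_ge {N l : ℕ} (h1 : 13 ≤ N) (h2 : N ≤ 15) (hl : l + 4 ≤ 2 * N) {s : ℝ}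
    (hs : s ≤ N - 12 + 1 / 1024) : 2 ^ 24 * (KT.tot N s + l * (3 * KA.th0)) ≤ bN N l := by
  have a : (105414358 : ℝ) * (204800 * N + 21 * (1024 * N + 1)) + 204800 * 61956216 * (l + 4) ≤
      204800 * bN N l + 204800 * 61956216 * (2 * N) + 105414358 * 21 * 1024 * 12 := by
    exact_mod_cast bN_nat N h2 l (by omega) h1 hl
  have b := KT.tot_mono N hs
  have c : (l : ℝ) + 4 ≤ 2 * N := by exact_mod_cast hl
  have d : (13 : ℝ) ≤ N := by exact_mod_cast h1
  have e1 : 2 ^ 24 * (2 * π) ≤ 105414358 := by linarith [pi_lt_d20]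
  have e2 : 61956216 ≤ 2 ^ 24 * (3 * KA.th0) := by linarith [KA.th0_lo]
  have f1 := mul_le_mul_of_nonneg_right e1
    (show (0 : ℝ) ≤ N + 21 / 200 * (N - 12 + 1 / 1024) by linarith)
  have f2 := mul_le_mul_of_nonneg_right e2 (show (0 : ℝ) ≤ 2 * N - 4 - l by linarith)
  unfold KT.tot at b ⊢
  linarith

variable {V : Type} [Fintype V] [DecidableEq V] {t : Tri KD.hs V} {n : ℕ} {L : List Tr} {ι : ℕ → V}

theorem uniq (e : Emb t.T n L ι) (o : Ok n L) {a b c d : ℕ} (h : (a, b, c) ∈ darts L)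
    (k : (a, b, d) ∈ darts L) : c = d :=
  e.inj _ (o.lt _ _ _ (darts_rot (darts_rot h))) _ (o.lt _ _ _ (darts_rot (darts_rot k)))
    (t.uniq _ _ _ _ (e.mem _ _ _ h) (e.mem _ _ _ k))

theorem pair (e : Emb t.T n L ι) (o : Ok n L) {E : ℕ}
    (hE : ∀ a b c, (a, b, c) ∈ darts L → (bit E (ix b a) = true ↔ Kn L b a)) (F : ℕ → ℕ → ℕ → ℝ)
    (hF : ∀ a b c d, (a, b, c) ∈ darts L → (b, a, d) ∈ darts L → 0 ≤ F a b c + F b a d) :
    0 ≤ sd L fun a b c => if bit E (ix b a) = true then F a b c else 0 := by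
  rw [sd_eq o, ← Finset.sum_filter]
  set D := (darts L).toFinset.filter fun s => bit E (ix s.2.1 s.1) = true
  have hD : ∀ a b c, (a, b, c) ∈ D ↔ (a, b, c) ∈ darts L ∧ Kn L b a := fun a b c => by
    rw [Finset.mem_filter, List.mem_toFinset]
    exact and_congr_right fun m => hE a b c m
  have ex : ∀ a b, ∃ c, Kn L a b → (a, b, c) ∈ darts L := fun a b => by
    by_cases k : Kn L a b
    · exact ⟨k.choose, fun _ => k.choose_spec⟩
    · exact ⟨0, fun q => absurd q k⟩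
  choose N hN using ex
  have m1 : ∀ s ∈ D, (s.2.1, s.1, N s.2.1 s.1) ∈ D := fun s hs =>
    (hD _ _ _).2 ⟨hN _ _ ((hD _ _ _).1 hs).2, _, ((hD _ _ _).1 hs).1⟩
  have m2 : ∀ s ∈ D, (s.1, s.2.1, N s.1 s.2.1) = s := fun s hs => by
    have a := ((hD s.1 s.2.1 s.2.2).1 hs).1
    rw [uniq e o (hN _ _ ⟨_, a⟩) a]
  have q : ∑ s ∈ D, F s.2.1 s.1 (N s.2.1 s.1) = ∑ s ∈ D, F s.1 s.2.1 s.2.2 :=
    Finset.sum_nbij' (fun s => (s.2.1, s.1, N s.2.1 s.1)) (fun s => (s.2.1, s.1, N s.2.1 s.1))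
      m1 m1 m2 m2 fun _ _ => rfl
  have r := Finset.sum_nonneg (s := D)
    (f := fun s => F s.1 s.2.1 s.2.2 + F s.2.1 s.1 (N s.2.1 s.1)) fun s hs =>
      hF _ _ _ _ ((hD _ _ _).1 hs).1 (hN _ _ ((hD _ _ _).1 hs).2)
  rw [Finset.sum_add_distrib, q] at r
  linarith

theorem angs (e : Emb t.T n L ι) (o : Ok n L) (hn : n ≤ 16) {am : ℕ} (ha : AmS am) {v : ℕ}
    (hv : v < n) : kw (fun a b => t.x (ι a) (ι b)) L v ≤ 2 * π ∧
      (bit (mkC L n) v = true → kw (fun a b => t.x (ι a) (ι b)) L v = 2 * π) ∧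
      (kv (mkK am L n) v : ℝ) / 32 ≤ kw (fun a b => t.x (ι a) (ι b)) L v := by
  obtain ⟨hE, hT⟩ := mkE_spec (L := L) fun a b c m => (o.lt a b c m).trans_le hn
  have R : Rep n (mkE L) (mkT L) 0 L := ⟨o, by omega, hn, hE, hT, by simp⟩
  have s1 := e.sum_star o hv fun s => t.A s.1 s.2.1 s.2.2
  rw [t.A_sum] at s1
  have s2 : kw (fun a b => t.x (ι a) (ι b)) L v = ((darts L).map fun s =>
    if s.1 = v then t.A (m3 ι s).1 (m3 ι s).2.1 (m3 ι s).2.2 else 0).sum := rfl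
  rw [← s2] at s1
  have s3 : 0 ≤ ∑ s ∈ (t.T \ img ι L).filter fun s => s.1 = ι v, t.A s.1 s.2.1 s.2.2 :=
    Finset.sum_nonneg fun s _ => (ang_pos _ _ _).le
  have cl : closedB (Nat.xor (mkE L) (mkT L)) v = true →
      kw (fun a b => t.x (ι a) (ι b)) L v = 2 * π := fun c => by
    rw [e.closed t.isCx o hv (R.closed c), Finset.sum_empty] at s1
    linarith
  refine ⟨by linarith, fun c => cl ?_, ?_⟩
  · have k := pk_lane 1 n (fun v => cd (closedB (Nat.xor (mkE L) (mkT L)) v) 1 0)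
      (fun i _ => by cases closedB (Nat.xor (mkE L) (mkT L)) i <;> decide) hv
    rw [one_mul] at k
    have c' : fld (mkC L n) v 1 = 1 := Nat.eq_of_beq_eq_true c
    have k' : fld (mkC L n) v 1 = cd (closedB (Nat.xor (mkE L) (mkT L)) v) 1 0 := k
    rw [c'] at k'
    cases q : closedB (Nat.xor (mkE L) (mkT L)) v
    · rw [q] at k'
      exact absurd k' (by decide)
    · rfl
  have mn1 : ∀ a b, mn a b ≤ a ∧ mn a b ≤ b := fun a b => by
    unfold mn
    cases q : Nat.ble a b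
    · have := Nat.not_le_of_not_ble_eq_true (n := a) (m := b) (by simp [q])
      exact ⟨show b ≤ a by omega, le_refl b⟩
    · exact ⟨le_refl a, Nat.le_of_ble_eq_true q⟩
  have k : kv (mkK am L n) v = cd (closedB (Nat.xor (mkE L) (mkT L)) v) 201
      (mn 201 (Nat.mul am (En.pc (Nat.shiftRight (mkE L) (Nat.mul 16 v))))) :=
    pk_lane 8 n (fun v => cd (closedB (Nat.xor (mkE L) (mkT L)) v) 201
      (mn 201 (Nat.mul am (En.pc (Nat.shiftRight (mkE L) (Nat.mul 16 v))))))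
      (fun i _ => by
        cases closedB (Nat.xor (mkE L) (mkT L)) i
        · exact (mn1 _ _).1.trans_lt (by norm_num)
        · exact (by norm_num : 201 < 2 ^ 8)) hv
  rw [k]
  cases q : closedB (Nat.xor (mkE L) (mkT L)) v
  swap
  · rw [cl q]
    show ((201 : ℕ) : ℝ) / 32 ≤ _
    push_cast
    linarith [pi_gt_d4]
  have k1 : cd false 201 (mn 201 (Nat.mul am (En.pc (Nat.shiftRight (mkE L) (Nat.mul 16 v))))) ≤
      am * En.pc (Nat.shiftRight (mkE L) (16 * v)) := (mn1 _ _).2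
  have k2 : En.pc (Nat.shiftRight (mkE L) (16 * v)) ≤
      ((darts L).toFinset.filter fun s => s.1 = v).card := by
    rw [pc_eq]
    refine le_trans (Finset.card_le_card ?_) (Finset.card_image_le (f := fun s : Tr => s.2.1))
    intro b hb
    rw [Finset.mem_filter, Finset.mem_range, test_sr] at hb
    obtain ⟨c, m⟩ := (hE v b hb.1).1 hb.2
    exact Finset.mem_image.2 ⟨(v, b, c), Finset.mem_filter.2 ⟨List.mem_toFinset.2 m, rfl⟩, rfl⟩
  have k3 := Finset.card_nsmul_le_sum ((darts L).toFinset.filter fun s => s.1 = v)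
    (fun s => aa (fun a b => t.x (ι a) (ι b)) s.1 s.2.1 s.2.2) ((am : ℝ) / 32) fun s hs =>
      ha V t _ _ _ (e.mem _ _ _ (List.mem_toFinset.1 (Finset.mem_filter.1 hs).1))
  rw [nsmul_eq_mul, Finset.sum_filter] at k3
  have k4 : ((cd false 201 (mn 201 (Nat.mul am (En.pc (Nat.shiftRight (mkE L) (Nat.mul 16 v))))) :
      ℕ) : ℝ) ≤ am * (((darts L).toFinset.filter fun s => s.1 = v).card : ℝ) := by
    exact_mod_cast k1.trans (Nat.mul_le_mul_left am k2)
  rw [kw, sd_eq o]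
  linarith

theorem bud (e : Emb t.T n L ι) (o : Ok n L) (H : KT.TauS KD.hs) {E : ℕ} {md : Bool}
    (hE : ∀ a b c, (a, b, c) ∈ darts L → (bit E (ix b a) = true ↔ Kn L b a))
    (hm : md = true → ∑ v, KT.y t v ≤ 21 / 20) (g : ℕ → ℕ → Bool)
    (hg : ∀ a b c, (a, b, c) ∈ darts L → bit E (ix b a) = false →
      (g a b = true → md = false ∧ t.x (ι a) (ι b) ≤ 1 / 8) ∧
        (g a b = false → md = true ∨ 1 / 8 ≤ t.x (ι a) (ι b))) :
    sd L (fun a b c => (1 + 21 / 200 * (1 - KN.ff (t.h (ι a)))) *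
        aa (fun a b => t.x (ι a) (ι b)) a b c -
      if bit E (ix b a) = false ∧ g a b = true then ph (fun a b => t.x (ι a) (ι b)) a b c / 16
        else 0) ≤ KT.tot (Fintype.card V) (∑ v, KT.y t v) + L.length * (3 * KA.th0) := by
  classical
  have hU : ∀ a b c, (a, b, c) ∈ img ι L → (b, c, a) ∈ img ι L := fun x y z ht => by
    obtain ⟨a, b, c, m, q⟩ := mem_img.1 ht
    simp only [Prod.mk.injEq] at q
    obtain ⟨rfl, rfl, rfl⟩ := q
    exact mem_img.2 ⟨_, _, _, darts_rot m, rfl⟩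
  have rev : ∀ a b c, (a, b, c) ∈ darts L → ((∃ d, (ι b, ι a, d) ∈ img ι L) ↔ Kn L b a) := by
    intro a b c m
    constructor
    · rintro ⟨d, hd⟩
      obtain ⟨b', a', d', m', q⟩ := mem_img.1 hd
      simp only [Prod.mk.injEq] at q
      obtain rfl := e.inj _ (o.lt _ _ _ m') _ (o.lt _ _ _ (darts_rot m)) q.1
      obtain rfl := e.inj _ (o.lt _ _ _ (darts_rot m')) _ (o.lt _ _ _ m) q.2.1
      exact ⟨_, m'⟩
    · rintro ⟨d, hd⟩
      exact ⟨ι d, mem_img.2 ⟨_, _, _, hd, rfl⟩⟩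
  set P : V × V × V → Prop := fun s => ∃ a b c, (a, b, c) ∈ darts L ∧ (ι a, ι b, ι c) = s ∧
    bit E (ix b a) = false ∧ g a b = true
  have hP : ∀ a b c, (a, b, c) ∈ darts L →
      (P (ι a, ι b, ι c) ↔ bit E (ix b a) = false ∧ g a b = true) := by
    intro a b c m
    refine ⟨?_, fun k => ⟨a, b, c, m, rfl, k⟩⟩
    rintro ⟨a', b', c', m', q, k⟩
    simp only [Prod.mk.injEq] at q
    obtain rfl := e.inj _ (o.lt _ _ _ m') _ (o.lt _ _ _ m) q.1
    obtain rfl := e.inj _ (o.lt _ _ _ (darts_rot m')) _ (o.lt _ _ _ (darts_rot m)) q.2.1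
    exact k
  have main : ∑ s ∈ img ι L, KT.tau t s.1 s.2.1 s.2.2 -
      3 * ∑ s ∈ (img ι L).filter P, KT.ph t s.1 s.2.1 s.2.2 ≤
      3 * KT.tot (Fintype.card V) (∑ v, KT.y t v) := by
    cases md
    · refine H.budget t e.sub hU ?_ ?_
      · intro x y z hx
        obtain ⟨h1, a, b, c, m, q, k1, k2⟩ := Finset.mem_filter.1 hx
        simp only [Prod.mk.injEq] at q
        obtain ⟨rfl, rfl, rfl⟩ := q
        refine ⟨h1, fun d hd => ?_, ((hg a b c m k1).1 k2).2⟩
        rw [(hE a b c m).2 ((rev a b c m).1 ⟨d, hd⟩)] at k1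
        exact Bool.noConfusion k1
      · intro x y z hx h1 h2
        obtain ⟨a, b, c, m, q⟩ := mem_img.1 hx
        simp only [Prod.mk.injEq] at q
        obtain ⟨rfl, rfl, rfl⟩ := q
        have k1 : bit E (ix b a) = false := by
          cases k : bit E (ix b a)
          · rfl
          · obtain ⟨d, hd⟩ := (rev a b c m).2 ((hE a b c m).1 k)
            exact absurd hd (h1 d)
        cases k2 : g a b
        · exact ((hg a b c m k1).2 k2).resolve_left (by simp)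
        · exact absurd (Finset.mem_filter.2 ⟨hx, (hP a b c m).2 ⟨k1, k2⟩⟩) h2
    · rw [Finset.filter_eq_empty_iff.2, Finset.sum_empty, mul_zero, sub_zero]
      · exact H.budget0 t hs_le (hm rfl) e.sub
      · rintro s - ⟨a, b, c, m, -, k1, k2⟩
        exact Bool.noConfusion ((hg a b c m k1).1 k2).1
  have r1 := KT.sum_rot hU fun s => (1 + 21 / 200 * KT.y t s.1) * t.A s.1 s.2.1 s.2.2
  have r2 := KT.sum_rot hU fun s => (1 + 21 / 200 * KT.y t s.2.1) * t.A s.2.1 s.2.2 s.1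
  have r3 : ((img ι L).card : ℝ) = 3 * L.length := by exact_mod_cast e.card_img o
  simp only [KT.tau_eq, Finset.sum_sub_distrib, Finset.sum_add_distrib, Finset.sum_const,
    nsmul_eq_mul] at main r1 r2
  have r4 : sd L (fun a b c => (1 + 21 / 200 * (1 - KN.ff (t.h (ι a)))) *
        aa (fun a b => t.x (ι a) (ι b)) a b c -
      if bit E (ix b a) = false ∧ g a b = true then ph (fun a b => t.x (ι a) (ι b)) a b c / 16
        else 0) = ∑ s ∈ img ι L, ((1 + 21 / 200 * KT.y t s.1) * t.A s.1 s.2.1 s.2.2 -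
          if P s then KT.ph t s.1 s.2.1 s.2.2 else 0) := by
    rw [e.sum_img o, sd]
    congr 1
    refine List.map_congr_left ?_
    rintro ⟨a, b, c⟩ m
    show _ = (1 + 21 / 200 * KT.y t (ι a)) * t.A (ι a) (ι b) (ι c) -
      if P (ι a, ι b, ι c) then KT.ph t (ι a) (ι b) (ι c) else 0
    rw [KT.ph_eq t (e.mem _ _ _ m)]
    simp only [hP a b c m]
    rfl
  rw [r4, Finset.sum_sub_distrib, ← Finset.sum_filter]
  rw [r3] at main
  linarith

end Glue

theorem amS_zero : AmS 0 := fun V _ _ t a b c _ => by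
  rw [Nat.cast_zero, zero_div]
  exact (ang_pos _ _ _).le

open Glue in
theorem glue (hL : LeafS) {tb : ℕ → ℕ → ℕ → ℕ} {yt am : ℕ} (hull : HullS KD.hs tb)
    (H : KT.TauS KD.hs) (hy : YS yt) (ha : AmS am) : KD.LeafS (lf tb yt am) := by
  intro N cap n L LO HI c h13 h15 hc hn o V _ _ t ι B e bx
  obtain ⟨hE, -⟩ := mkE_spec (L := L) fun a b c m => (o.lt a b c m).trans_le hn
  have hE' : ∀ a b c, (a, b, c) ∈ darts L → (bit (mkE L) (ix b a) = true ↔ Kn L b a) :=
    fun a b c m => by rw [bit_eq]; exact hE b a ((o.lt a b c m).trans_le hn)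
  have cr := e.card_rest t.isCx o
  rw [B.card] at cr
  have y0 : ∀ v, 0 ≤ 1 - KN.ff (t.h v) := KT.y_nonneg t hs_le
  have ys : ∑ v, KT.y t v ≤ N - 12 + 1 / 1024 := B.sum.le
  refine hL KD.hs tb yt n L (mkE L) (mkC L n) (mkK am L n) (bN N (len L)) (yN N) (Nat.ble N 13)
    LO HI c (fun a b => t.x (ι a) (ι b)) (fun a => t.h (ι a)) (fun a => 1 - KN.ff (t.h (ι a)))
    hull ⟨hn, by omega, fun a b c m => ⟨o.lt a b c m, ?_⟩, fun a b => t.x_symm _ _,
      fun a b c m => ⟨t.gram_pos _ _ _ (e.mem _ _ _ m), t.rad _ _ _ (e.mem _ _ _ m)⟩,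
      fun a b c m => ?_, fun v hv => ?_, fun a b c m => t.sep _ _ (t.ne _ _ _ (e.mem _ _ _ m)).1,
      fun a b c d m m' => ?_, pair e o hE', fun v hv => angs e o hn ha hv, fun g hg => ?_, ?_,
      fun v _ => ⟨y0 _, fun i j θ a1 a2 a3 a4 a5 => hy i j θ _ a1 a2 a3 a4 a5 (t.h_hi _)⟩⟩ hc
  · rintro rfl
    exact (t.ne _ _ _ (e.mem _ _ _ m)).1 rfl
  · rw [blo_eq, blo_eq, gr_eq, gr_eq]
    exact bx.x a (o.lt _ _ _ m) b (o.lt _ _ _ (darts_rot m)) ⟨_, e.mem _ _ _ m⟩
  · rw [hlo_eq, hlo_eq]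
    exact bx.h v hv
  · have := t.del_lin (e.mem _ _ _ m) (e.mem _ _ _ m')
    unfold Tri.A at this
    unfold ph aa
    linarith
  · have k1 := bud e o H hE' (md := Nat.ble N 13) (fun k => by
      have : (N : ℝ) ≤ 13 := by exact_mod_cast Nat.le_of_ble_eq_true k
      linarith) g hg
    rw [B.card] at k1
    rw [len_eq]
    exact (mul_le_mul_of_nonneg_left k1 (by norm_num)).trans (bN_ge h13 h15 (by omega) ys)
  · have k1 : ∑ v ∈ Finset.range n, (1 - KN.ff (t.h (ι v))) ≤ ∑ v, KT.y t v := by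
      rw [← Finset.sum_image (s := Finset.range n) (g := ι) (f := fun v => 1 - KN.ff (t.h v))
        fun i hi j hj q => e.inj i (by simpa using hi) j (by simpa using hj) q]
      exact Finset.sum_le_sum_of_subset_of_nonneg (Finset.subset_univ _) fun v _ _ => y0 v
    have k2 : (yN N : ℝ) = 16777216 * (N - 12) + 16384 := by
      show ((16777216 * (N - 12) + 16384 : ℕ) : ℝ) = _
      push_cast [Nat.cast_sub (show 12 ≤ N by omega)]
      ring
    rw [k2]
    linarith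

end Pool.Agent.Lib.MP_f3b2fd_co.KL
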